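import Mathlib

/-!
# Averages of continuous functions on a torus
-/

set_option autoImplicit false

namespace Pool.Agent.H439.LL

open UnitAddTorus

/-- Two functionals which agree at many characters of the torus are close on a compact set of
functions. -/
theorem approx {d : Type*} [Fintype d] (S : Set C(UnitAddTorus d, ℂ)) (hS : IsCompact S)
    {η : ℝ} (hη : 0 < η) : ∃ F : Finset (d → ℤ), ∀ A B : C(UnitAddTorus d, ℂ) →ₗ[ℂ] ℂ,
      (∀ G, ‖A G‖ ≤ ‖G‖) → (∀ G, ‖B G‖ ≤ ‖G‖) →
      (∀ m ∈ F, A (mFourier m) = B (mFourier m)) → ∀ G ∈ S, ‖A G - B G‖ ≤ η := by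
  classical
  obtain ⟨t, ht, hcov⟩ := Metric.totallyBounded_iff.1 hS.totallyBounded (η / 4) (by positivity)
  have h1 : ∀ G : C(UnitAddTorus d, ℂ), ∃ c : (d → ℤ) →₀ ℂ,
      ‖G - c.sum (fun m z => z • mFourier m)‖ < η / 4 := by
    intro G
    have h2 : G ∈ (Submodule.span ℂ (Set.range <| mFourier (d := d))).topologicalClosure := by
      rw [span_mFourier_closure_eq_top]
      trivial
    obtain ⟨P, hP, hd⟩ := Metric.mem_closure_iff.1 h2 (η / 4) (by positivity)
    obtain ⟨c, hc⟩ := Finsupp.mem_span_range_iff_exists_finsupp.1 hP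
    refine ⟨c, ?_⟩
    rw [hc, ← dist_eq_norm]
    exact hd
  choose c hc using h1
  refine ⟨ht.toFinset.biUnion fun G => (c G).support, fun A B hA hB hAB G hG => ?_⟩
  obtain ⟨G', hG't, hG'⟩ := Set.mem_iUnion₂.1 (hcov hG)
  rw [Metric.mem_ball, dist_eq_norm] at hG'
  set P := (c G').sum (fun m z => z • mFourier m) with hP
  have h3 : A P = B P := by
    rw [hP, Finsupp.sum, map_sum, map_sum]
    apply Finset.sum_congr rfl
    intro m hm
    rw [map_smul, map_smul, hAB m]
    exact Finset.mem_biUnion.2 ⟨G', ht.mem_toFinset.2 hG't, hm⟩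
  have h4 : ‖G - P‖ ≤ η / 2 := by
    have : G - P = (G - G') + (G' - P) := by abel
    rw [this]
    refine (norm_add_le _ _).trans ?_
    have := hc G'
    linarith
  have h5 : A G - B G = A (G - P) - B (G - P) := by
    rw [map_sub, map_sub, h3]
    ring
  rw [h5]
  refine (norm_sub_le _ _).trans ?_
  have := hA (G - P)
  have := hB (G - P)
  linarith

end Pool.Agent.H439.LL
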