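import Pool.Agent.H439.LL.Random
import Pool.Agent.H439.LL.Torus

/-!
# The finite Euler products
-/

set_option autoImplicit false

namespace Pool.Agent.H439.LL

open Finset Complex ComplexConjugate Filter Topology NumberField IsDedekindDomain Polynomial
  Pool.Agent.TH339.MP Pool.Agent.H439.LS Pool.Agent.H439.SP

section
variable {K : Type} [Field K] [NumberField K] {N : ℕ}

/-- the conditions on the Euler factors -/
structure HW (P : HeightOneSpectrum (𝓞 K) → ℂ[X]) (N : ℕ) (w : ℝ) : Prop where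
  c0 : ∀ v, (P v).coeff 0 = 1
  deg : ∀ v, (P v).natDegree ≤ N
  root : ∀ v, ∀ z : ℂ, (P v).IsRoot z → ((nm v : ℕ) : ℝ) ^ (-(w / 2)) ≤ ‖z‖

lemma nm_ge_two (v : HeightOneSpectrum (𝓞 K)) : (2 : ℝ) ≤ (nm v : ℝ) := by
  have h1 : 2 ≤ nm v := by
    rw [nm_eq]
    exact (pr v).2.two_le.trans (Nat.le_self_pow (dg_pos v).ne' _)
  exact_mod_cast h1

variable {P : HeightOneSpectrum (𝓞 K) → ℂ[X]} {w : ℝ}

lemma eval_bounds (hP : HW P N w) (v : HeightOneSpectrum (𝓞 K)) {x : ℂ}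
    (hx : ‖x‖ ≤ (nm v : ℝ) ^ (-(1 + w / 2))) :
    ‖((P v).eval x)⁻¹‖ ≤ 2 ^ N ∧ (2 ^ N)⁻¹ ≤ ‖((P v).eval x)⁻¹‖ ∧ (P v).eval x ≠ 0 := by
  obtain ⟨β, h1, h2⟩ := exists_beta_all w P hP.c0 hP.deg hP.root
  have hn2 := nm_ge_two v
  have hn0 : (0 : ℝ) < (nm v : ℝ) := by linarith
  have h3 : ∀ j, ‖β v j * ((((nm v : ℕ) : ℝ) ^ (w / 2) : ℝ) : ℂ) * x‖ ≤ 1 / 2 := by
    intro j
    rw [norm_mul, norm_mul, Complex.norm_real, Real.norm_of_nonneg (Real.rpow_nonneg hn0.le _)]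
    calc ‖β v j‖ * (nm v : ℝ) ^ (w / 2) * ‖x‖ ≤
          1 * (nm v : ℝ) ^ (w / 2) * (nm v : ℝ) ^ (-(1 + w / 2)) := by
          apply mul_le_mul _ hx (norm_nonneg _) (by positivity)
          exact mul_le_mul_of_nonneg_right (h1 v j) (by positivity)
      _ = (nm v : ℝ) ^ (-1 : ℝ) := by
          rw [one_mul, ← Real.rpow_add hn0]
          congr 1
          ring
      _ = 1 / (nm v : ℝ) := by rw [Real.rpow_neg_one, one_div]
      _ ≤ 1 / 2 := one_div_le_one_div_of_le (by norm_num) hn2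
  have h4 : ∀ j, 1 / 2 ≤ ‖1 - β v j * ((((nm v : ℕ) : ℝ) ^ (w / 2) : ℝ) : ℂ) * x‖ := by
    intro j
    have := norm_sub_norm_le (1 : ℂ) (β v j * ((((nm v : ℕ) : ℝ) ^ (w / 2) : ℝ) : ℂ) * x)
    rw [norm_one] at this
    linarith [h3 j]
  have h5 : ∀ j, ‖1 - β v j * ((((nm v : ℕ) : ℝ) ^ (w / 2) : ℝ) : ℂ) * x‖ ≤ 2 := by
    intro j
    have := norm_sub_le (1 : ℂ) (β v j * ((((nm v : ℕ) : ℝ) ^ (w / 2) : ℝ) : ℂ) * x)
    rw [norm_one] at this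
    linarith [h3 j]
  have h6 : (1 / 2 : ℝ) ^ N ≤ ‖(P v).eval x‖ := by
    rw [h2, norm_prod]
    calc (1 / 2 : ℝ) ^ N = ∏ _j : Fin N, (1 / 2 : ℝ) := by simp
      _ ≤ _ := prod_le_prod (fun _ _ => by norm_num) fun j _ => h4 j
  have h7 : ‖(P v).eval x‖ ≤ 2 ^ N := by
    rw [h2, norm_prod]
    calc _ ≤ ∏ _j : Fin N, (2 : ℝ) := prod_le_prod (fun _ _ => norm_nonneg _) fun j _ => h5 j
      _ = _ := by simp
  have h8 : 0 < ‖(P v).eval x‖ := lt_of_lt_of_le (by positivity) h6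
  refine ⟨?_, ?_, norm_pos_iff.1 h8⟩
  · rw [norm_inv]
    refine (inv_anti₀ (by positivity) h6).trans (le_of_eq ?_)
    rw [one_div, inv_pow, inv_inv]
  · rw [norm_inv]
    exact inv_anti₀ h8 h7

/-- the arguments of the Euler factors -/
lemma norm_arg {g : ℕ → ℂ} (hg : PM g) {s : ℂ} (hs : 1 + w / 2 ≤ s.re)
    (v : HeightOneSpectrum (𝓞 K)) :
    ‖g (nm v) * ((nm v : ℕ) : ℂ) ^ (-s)‖ ≤ (nm v : ℝ) ^ (-(1 + w / 2)) := by
  have hn2 := nm_ge_two v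
  have hnpos : 0 < nm v := by
    have : (0 : ℝ) < (nm v : ℝ) := by linarith
    exact_mod_cast this
  rw [norm_mul, norm_natCast_cpow_of_pos hnpos, neg_re]
  have h1 := norm_g_nm hg v
  have h2 : (nm v : ℝ) ^ (-s.re) ≤ (nm v : ℝ) ^ (-(1 + w / 2)) :=
    Real.rpow_le_rpow_of_exponent_le (by linarith) (by linarith)
  calc _ ≤ 1 * (nm v : ℝ) ^ (-(1 + w / 2)) := by
        apply mul_le_mul h1 h2 (by positivity) (by norm_num)
    _ = _ := one_mul _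

/-- the bound of the finite Euler product -/
noncomputable def BB (K : Type) [Field K] [NumberField K] (N : ℕ) (y : ℝ) : ℝ :=
  (2 ^ N) ^ (Vy K y).card

lemma one_le_BB (y : ℝ) : 1 ≤ BB K N y := by
  unfold BB
  exact one_le_pow₀ (one_le_pow₀ (by norm_num))

lemma EP_bounds (hP : HW P N w) {g : ℕ → ℂ} (hg : PM g) {s : ℂ} (hs : 1 + w / 2 ≤ s.re) (y : ℝ) :
    ‖EP P g s y‖ ≤ BB K N y ∧ (BB K N y)⁻¹ ≤ ‖EP P g s y‖ := by
  unfold EP BB
  rw [norm_prod]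
  constructor
  · calc _ ≤ ∏ _v ∈ Vy K y, (2 ^ N : ℝ) := prod_le_prod (fun _ _ => norm_nonneg _) fun v _ =>
          (eval_bounds hP v (norm_arg hg hs v)).1
      _ = _ := by simp
  · calc ((2 ^ N) ^ (Vy K y).card : ℝ)⁻¹ = ∏ _v ∈ Vy K y, ((2 ^ N : ℝ))⁻¹ := by
          rw [prod_const, inv_pow]
      _ ≤ _ := prod_le_prod (fun _ _ => by positivity) fun v _ =>
          (eval_bounds hP v (norm_arg hg hs v)).2.1

/-- the primes up to `Y` -/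
def DY (Y : ℕ) : Finset ℕ := (range (Y + 1)).filter Nat.Prime

lemma pr_mem_DY {Y : ℕ} {v : HeightOneSpectrum (𝓞 K)} (hv : v ∈ Vy K (Y : ℝ)) :
    ((pr v : Nat.Primes) : ℕ) ∈ DY Y := by
  rw [mem_Vy] at hv
  have h1 : nm v ≤ Y := by exact_mod_cast hv
  have h2 : ((pr v : Nat.Primes) : ℕ) ≤ nm v := by
    rw [nm_eq]
    exact Nat.le_self_pow (dg_pos v).ne' _
  unfold DY
  rw [mem_filter, mem_range]
  exact ⟨by omega, (pr v).2⟩

/-- the value at a prime of the point `u` of the torus -/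
noncomputable def zS {Y : ℕ} (S : Finset ℕ) (u : UnitAddTorus (DY Y)) (p : ℕ) : ℂ :=
  if h : p ∈ DY Y ∧ p ∈ S then (AddCircle.toCircle (u ⟨p, h.1⟩) : ℂ) else 0

lemma norm_zS {Y : ℕ} (S : Finset ℕ) (u : UnitAddTorus (DY Y)) (p : ℕ) : ‖zS S u p‖ ≤ 1 := by
  unfold zS
  split_ifs
  · rw [Circle.norm_coe]
  · simp

lemma continuous_zS {Y : ℕ} (S : Finset ℕ) (p : ℕ) :
    Continuous fun u : UnitAddTorus (DY Y) => zS S u p := by
  unfold zS
  split_ifs with h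
  · exact continuous_subtype_val.comp (AddCircle.continuous_toCircle.comp (continuous_apply _))
  · exact continuous_const

/-- the finite Euler product on the torus -/
noncomputable def HS (P : HeightOneSpectrum (𝓞 K) → ℂ[X]) (w : ℝ) {Y : ℕ} (S : Finset ℕ)
    (u : UnitAddTorus (DY Y)) (ε : ℝ) : ℂ :=
  ∏ v ∈ Vy K (Y : ℝ), ((P v).eval (zS S u (pr v : Nat.Primes) ^ dg v *
    ((nm v : ℕ) : ℂ) ^ (-(1 + (w : ℂ) / 2 + (ε : ℂ)))))⁻¹

lemma HS_eq {Y : ℕ} {S : Finset ℕ} {u : UnitAddTorus (DY Y)} {g : ℕ → ℂ} (hg : PM g)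
    (h : ∀ p ∈ DY Y, zS S u p = g p) (ε : ℝ) :
    HS P w S u ε = EP P g (1 + (w : ℂ) / 2 + (ε : ℂ)) Y := by
  unfold HS EP
  apply prod_congr rfl
  intro v hv
  rw [h _ (pr_mem_DY hv), ← hg.pow _ (pr v).2, ← nm_eq]

lemma continuous_HS (hP : HW P N w) {Y : ℕ} (S : Finset ℕ) :
    Continuous fun x : Set.Icc (0 : ℝ) (1 / 2) × UnitAddTorus (DY Y) =>
      HS P w S x.2 (x.1 : ℝ) := by
  unfold HS
  apply continuous_finsetProd
  intro v _
  have hn2 := nm_ge_two v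
  have hn0 : (0 : ℝ) < (nm v : ℝ) := by linarith
  have hnpos : 0 < nm v := by exact_mod_cast hn0
  have hne : ((nm v : ℕ) : ℂ) ≠ 0 := by exact_mod_cast hnpos.ne'
  apply Continuous.inv₀
  · apply (P v).continuous.comp
    apply Continuous.mul
    · exact ((continuous_zS S _).comp continuous_snd).pow _
    · apply Continuous.const_cpow _ (Or.inl hne)
      fun_prop
  · intro x
    apply (eval_bounds hP v _).2.2
    rw [norm_mul, norm_pow, norm_natCast_cpow_of_pos hnpos]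
    have h1 : ‖zS S x.2 (pr v : Nat.Primes)‖ ^ dg v ≤ 1 := pow_le_one₀ (norm_nonneg _) (norm_zS _ _ _)
    have h2 : (-(1 + (w : ℂ) / 2 + (((x.1 : ℝ)) : ℂ))).re = -(1 + w / 2 + (x.1 : ℝ)) := by
      have : ((w : ℂ) / 2).re = w / 2 := by
        rw [show (w : ℂ) / 2 = ((w / 2 : ℝ) : ℂ) by push_cast; rfl, ofReal_re]
      simp [this]
    rw [h2]
    have h3 : (nm v : ℝ) ^ (-(1 + w / 2 + (x.1 : ℝ))) ≤ (nm v : ℝ) ^ (-(1 + w / 2)) :=
      Real.rpow_le_rpow_of_exponent_le (by linarith) (by linarith [x.1.2.1])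
    calc _ ≤ 1 * (nm v : ℝ) ^ (-(1 + w / 2)) := by
          apply mul_le_mul h1 h3 (by positivity) (by norm_num)
      _ = _ := one_mul _

/-- **Comparison of averages of functions of the finite Euler product.** -/
lemma exists_freq (hP : HW P N w) {Y : ℕ} (S : Finset ℕ) {f : ℂ → ℝ} (hf : Continuous f) {η : ℝ}
    (hη : 0 < η) : ∃ F : Finset (DY Y → ℤ), ∀ A B : C(UnitAddTorus (DY Y), ℂ) →ₗ[ℂ] ℂ,
      (∀ G, ‖A G‖ ≤ ‖G‖) → (∀ G, ‖B G‖ ≤ ‖G‖) →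
      (∀ m ∈ F, A (UnitAddTorus.mFourier m) = B (UnitAddTorus.mFourier m)) →
      ∀ ε : ℝ, 0 ≤ ε → ε ≤ 1 / 2 → ∀ G : C(UnitAddTorus (DY Y), ℂ),
        (∀ u, G u = (f (HS P w S u ε) : ℂ)) → ‖A G - B G‖ ≤ η := by
  set Φ : C(Set.Icc (0 : ℝ) (1 / 2) × UnitAddTorus (DY Y), ℂ) :=
    ⟨fun x => (f (HS P w S x.2 (x.1 : ℝ)) : ℂ),
      Complex.continuous_ofReal.comp (hf.comp (continuous_HS hP S))⟩ with hΦ
  have hcomp : IsCompact (Set.range Φ.curry) := isCompact_range Φ.curry.continuous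
  obtain ⟨F, hF⟩ := approx (Set.range Φ.curry) hcomp hη
  refine ⟨F, fun A B hA hB hAB ε h0 h1 G hG => ?_⟩
  apply hF A B hA hB hAB G
  refine ⟨⟨ε, h0, h1⟩, ?_⟩
  ext u
  rw [hG u]
  rfl

end

end Pool.Agent.H439.LL
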