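import Pool.Agent.H439.LL.Main

/-!
# A model of the random multiplicative function
-/

set_option autoImplicit false

namespace Pool.Agent.H439.LL

open MeasureTheory ProbabilityTheory Complex

/-- the value at a prime -/
noncomputable def vp (ω : Nat.Primes → unitInterval) (p : ℕ) : ℂ :=
  if h : p.Prime then Complex.exp (2 * Real.pi * I * ((ω ⟨p, h⟩ : ℝ) : ℂ)) else 1

/-- the completely multiplicative function -/
noncomputable def rmf (ω : Nat.Primes → unitInterval) (n : ℕ) : ℂ :=
  n.factorization.prod fun p k => vp ω p ^ k

/-- the product of the uniform measures -/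
noncomputable def pmu : Measure (Nat.Primes → unitInterval) :=
  Measure.infinitePi fun _ => (volume : Measure unitInterval)

instance : IsProbabilityMeasure pmu := by
  unfold pmu
  infer_instance

lemma rmf_prime' (ω : Nat.Primes → unitInterval) {p : ℕ} (hp : p.Prime) :
    rmf ω p = vp ω p := by
  unfold rmf
  rw [hp.factorization, Finsupp.prod_single_index (h := fun p k => vp ω p ^ k) (pow_zero _),
    pow_one]

lemma rmf_prime (ω : Nat.Primes → unitInterval) (p : Nat.Primes) :
    rmf ω p = Complex.exp (2 * Real.pi * I * ((ω p : ℝ) : ℂ)) := by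
  rw [rmf_prime' ω p.2]
  unfold vp
  rw [dif_pos p.2]
  rfl

lemma model : Steinhaus pmu (fun n ω => rmf ω n) := by
  constructor
  · intro m n hm hn ω
    unfold rmf
    rw [Nat.factorization_mul hm.ne' hn.ne', Finsupp.prod_add_index' (fun _ => pow_zero _)
      (fun _ _ _ => pow_add _ _ _)]
  · refine ⟨fun p ω => (ω p : ℝ), fun p => ?_, fun p => ?_, ?_, fun p ω => rmf_prime ω p⟩
    · exact measurable_subtype_coe.comp (measurable_pi_apply p)
    · have h1 := (measurePreserving_eval_infinitePi
        (fun _ : Nat.Primes => (volume : Measure unitInterval)) p)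
      have h2 := unitInterval.measurePreserving_coe.comp h1
      exact h2.map_eq
    · exact iIndepFun_infinitePi (P := fun _ : Nat.Primes => (volume : Measure unitInterval))
        (X := fun _ x => (x : ℝ)) fun _ => measurable_subtype_coe

end Pool.Agent.H439.LL
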