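import Pool.Agent.H439.LL.Weyl

/-!
# The limit law
-/

set_option autoImplicit false
set_option linter.unusedSectionVars false

namespace Pool.Agent.H439.LL

open Finset Complex ComplexConjugate Filter Topology MeasureTheory ProbabilityTheory NumberField
  IsDedekindDomain Polynomial Pool.Agent.TH339.MP Pool.Agent.H439.LS Pool.Agent.H439.SP

section
variable {K : Type} [Field K] [NumberField K] {N : ℕ}
variable {P : HeightOneSpectrum (𝓞 K) → ℂ[X]} {w : ℝ}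

/-- the Euler product is close to the finite Euler product -/
def Good (P : HeightOneSpectrum (𝓞 K) → ℂ[X]) (w : ℝ) (Y : ℕ) (θ : ℝ) (g : ℕ → ℂ) (ε : ℝ) : Prop :=
  ∃ Λ : ℂ, ‖Λ‖ ≤ θ ∧ LG P g (1 + (w : ℂ) / 2 + (ε : ℂ)) =
    EP P g (1 + (w : ℂ) / 2 + (ε : ℂ)) Y * Complex.exp Λ

lemma re_s (w ε : ℝ) : (1 + (w : ℂ) / 2 + (ε : ℂ)).re = 1 + w / 2 + ε := by
  have : ((w : ℂ) / 2).re = w / 2 := by
    rw [show (w : ℂ) / 2 = ((w / 2 : ℝ) : ℂ) by push_cast; rfl, ofReal_re]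
  simp [this]

lemma good_of_PG (hP : HW P N w) {Y : ℕ} (hY : 1 ≤ Y) :
    ∃ a : ℕ → ℂ, (∀ p : ℕ, p.Prime → ‖a p‖ ≤ (Module.finrank ℚ K : ℝ) * N + 1) ∧
      (∀ p : ℕ, p.Prime → p ≤ Y → a p = 0) ∧ ∀ (g : ℕ → ℂ) (ε θ : ℝ), PM g → 0 < ε →
        (Module.finrank ℚ K : ℝ) * N * c₁ * (Y : ℝ) ^ (-(1 / 4 : ℝ)) ≤ θ / 2 →
        ‖PG a g (1 + (ε : ℂ))‖ < θ / 2 → Good P w Y θ g ε := by
  obtain ⟨a, h1, h2, h3⟩ := hasProd_gen w P hP.c0 hP.deg hP.root
    (y := (Y : ℝ)) (by exact_mod_cast hY)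
  refine ⟨a, fun p hp => (h1 p hp).trans (by linarith), fun p hp hpY => h2 p hp (by exact_mod_cast hpY),
    fun g ε θ hg hε hθ hPG => ?_⟩
  obtain ⟨Λ, Λ', e1, e2, e3⟩ := h3 g (1 + (w : ℂ) / 2 + (ε : ℂ)) hg (by rw [re_s]; linarith)
  have e4 : (1 + (w : ℂ) / 2 + (ε : ℂ)) - ((w / 2 : ℝ) : ℂ) = 1 + (ε : ℂ) := by
    push_cast
    ring
  rw [e4] at e3
  refine ⟨Λ, ?_, ?_⟩
  · have := norm_add_le (Λ - PG a g (1 + (ε : ℂ))) (PG a g (1 + (ε : ℂ)))
    rw [sub_add_cancel] at this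
    linarith
  · unfold LG
    rw [e1.tprod_eq, e2, ← Complex.exp_add, add_comm]

lemma ev_small (D : ℝ) {θ : ℝ} (hθ : 0 < θ) :
    ∀ᶠ Y : ℕ in atTop, D * (Y : ℝ) ^ (-(1 / 4 : ℝ)) ≤ θ := by
  have h1 : Tendsto (fun Y : ℕ => D * (Y : ℝ) ^ (-(1 / 4 : ℝ))) atTop (𝓝 (D * 0)) :=
    ((tendsto_rpow_neg_atTop (by norm_num : (0 : ℝ) < 1 / 4)).comp
      tendsto_natCast_atTop_atTop).const_mul _
  rw [mul_zero] at h1
  filter_upwards [h1.eventually (gt_mem_nhds hθ)] with Y hY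
  exact hY.le

lemma ev_div (D : ℝ) {θ : ℝ} (hθ : 0 < θ) : ∀ᶠ Y : ℕ in atTop, D / (Y : ℝ) ≤ θ := by
  have h1 : Tendsto (fun Y : ℕ => D / (Y : ℝ)) atTop (𝓝 0) :=
    tendsto_const_nhds.div_atTop tendsto_natCast_atTop_atTop
  filter_upwards [h1.eventually (gt_mem_nhds hθ)] with Y hY
  exact hY.le

lemma ev_totient {δ : ℝ} (hδ : δ < 1) {η : ℝ} (hη : 0 < η) :
    ∀ᶠ q : ℕ in atTop, (q : ℝ) ^ δ ≤ η * q.totient := by
  have h1 : Tendsto (fun x : ℝ => (Real.log x / Real.log 2 + 1) / x ^ (1 - δ)) atTop (𝓝 0) := by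
    have h2 := (isLittleO_log_rpow_atTop (r := 1 - δ) (by linarith)).tendsto_div_nhds_zero
    have h3 : Tendsto (fun x : ℝ => 1 / x ^ (1 - δ)) atTop (𝓝 0) :=
      tendsto_const_nhds.div_atTop (tendsto_rpow_atTop (by linarith))
    have h4 := (h2.mul_const (1 / Real.log 2)).add h3
    rw [zero_mul, add_zero] at h4
    refine h4.congr fun x => ?_
    ring
  filter_upwards [(h1.comp tendsto_natCast_atTop_atTop).eventually (gt_mem_nhds hη),
    eventually_ge_atTop 2] with q hq hq2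
  simp only [Function.comp] at hq
  have hq0 : (0 : ℝ) < q := by exact_mod_cast (by omega : 0 < q)
  have h5 := le_totient (n := q) (by omega)
  have h6 : (0 : ℝ) < (q : ℝ) ^ (1 - δ) := Real.rpow_pos_of_pos hq0 _
  rw [div_lt_iff₀ h6] at hq
  have h7 : (q : ℝ) = (q : ℝ) ^ δ * (q : ℝ) ^ (1 - δ) := by
    rw [← Real.rpow_add hq0]
    simp
  have h8 : (q : ℝ) ^ δ * (q : ℝ) ^ (1 - δ) ≤ (η * q.totient) * (q : ℝ) ^ (1 - δ) := by
    rw [← h7]
    calc (q : ℝ) ≤ q.totient * (Real.log q / Real.log 2 + 1) := h5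
      _ ≤ q.totient * (η * (q : ℝ) ^ (1 - δ)) := mul_le_mul_of_nonneg_left hq.le (Nat.cast_nonneg _)
      _ = _ := by ring
  exact le_of_mul_le_mul_right h8 h6

/-- **Almost all characters are good.** -/
lemma good_chi (hP : HW P N w) {A c : ℝ} (hA : 1 ≤ A) (hc : 0 < c) (hc8 : c < 1 / 8) {θ η : ℝ}
    (hθ : 0 < θ) (hη : 0 < η) :
    ∀ᶠ Y : ℕ in atTop, ∃ Q₀ : ℕ, ∀ (q : ℕ) [NeZero q], Q₀ ≤ q → ∀ t : ℝ, |t| ≤ (q : ℝ) ^ A →
      ∀ ε : ℝ, Real.exp (-(q : ℝ) ^ c) ≤ ε → ε ≤ 1 / 2 →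
      ∀ B : Finset (DirichletCharacter ℂ q), (∀ χ ∈ B, ¬ Good P w Y θ (gch χ t) ε) →
        (B.card : ℝ) ≤ η * q.totient := by
  set M : ℝ := (Module.finrank ℚ K : ℝ) * N + 1 with hM
  have hM0 : 0 < M := by positivity
  filter_upwards [ev_small ((Module.finrank ℚ K : ℝ) * N * c₁) (half_pos hθ),
    ev_div (4 * M ^ 2 / (θ / 2) ^ 2) (half_pos hη), eventually_ge_atTop 1] with Y hY1 hY2 hY3
  obtain ⟨a, h1, h2, h3⟩ := good_of_PG hP hY3
  obtain ⟨Q₁, hQ₁⟩ := chi_tail (δ := 8 * c) (A := A) (M := M) (θ := θ / 2) (by linarith) (by linarith)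
    hA hM0 (half_pos hθ) hY3
  obtain ⟨Q₂, hQ₂⟩ := eventually_atTop.1 (ev_totient (δ := 8 * c) (by linarith) (half_pos hη))
  refine ⟨max Q₁ Q₂, fun q _ hq t ht ε hε0 hε1 B hB => ?_⟩
  have hε : 0 < ε := lt_of_lt_of_le (Real.exp_pos _) hε0
  have h4 := hQ₁ q ((le_max_left _ _).trans hq) t ht ε (by
    rw [show 8 * c / 8 = c by ring]; exact hε0) hε1 a h1 h2 B (fun χ hχ => by
      by_contra hcon
      rw [not_le] at hcon
      exact hB χ hχ (h3 _ ε θ (pm_gch χ t) hε hY1 hcon))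
  have h5 := hQ₂ q ((le_max_right _ _).trans hq)
  have hY0 : (0 : ℝ) < Y := by exact_mod_cast hY3
  have h6 : 4 * M ^ 2 / (Y * (θ / 2) ^ 2) ≤ η / 2 := by
    refine le_trans (le_of_eq ?_) hY2
    field_simp
  have h7 : (q.totient : ℝ) * (4 * M ^ 2 / (Y * (θ / 2) ^ 2)) ≤ q.totient * (η / 2) :=
    mul_le_mul_of_nonneg_left h6 (Nat.cast_nonneg _)
  linarith

/-- **Almost all random functions are good.** -/
lemma good_X (hP : HW P N w) {θ η : ℝ} (hθ : 0 < θ) (hη : 0 < η) :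
    ∀ᶠ Y : ℕ in atTop, ∀ (Ω : Type) [MeasurableSpace Ω] (μ : Measure Ω) (X : ℕ → Ω → ℂ),
      Steinhaus μ X → ∀ (q : ℕ) (ε : ℝ), 0 < ε →
        μ.real {ω | ¬ Good P w Y θ (gX q X ω) ε} ≤ η := by
  set M : ℝ := (Module.finrank ℚ K : ℝ) * N + 1 with hM
  have hM0 : 0 < M := by positivity
  filter_upwards [ev_small ((Module.finrank ℚ K : ℝ) * N * c₁) (half_pos hθ),
    ev_div (4 * M ^ 2 / (θ / 2) ^ 2) hη, eventually_ge_atTop 1] with Y hY1 hY2 hY3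
  intro Ω _ μ X hX q ε hε
  have hprob := hX.prob
  obtain ⟨a, h1, h2, h3⟩ := good_of_PG hP hY3
  have h4 := x_tail hX hM0 (half_pos hθ) hY3 q hε a h1 h2
  have hY0 : (0 : ℝ) < Y := by exact_mod_cast hY3
  have h6 : 4 * M ^ 2 / (Y * (θ / 2) ^ 2) ≤ η := by
    refine le_trans (le_of_eq ?_) hY2
    field_simp
  refine le_trans (measureReal_mono ?_) (h4.trans h6)
  intro ω hω
  change θ / 2 ≤ ‖PG a (gX q X ω) (1 + (ε : ℂ))‖
  by_contra hcon
  rw [not_le] at hcon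
  exact hω (h3 _ ε θ (pm_gX hX q ω) hε hY1 hcon)

lemma ex_e : Real.exp 1 * Real.exp 1 ≤ 9 := by
  have := Real.exp_one_lt_d9
  have h0 := Real.exp_pos 1
  nlinarith

/-- comparison of the values of a function -/
lemma close (hP : HW P N w) {f : ℂ → ℝ} (hf : Continuous f) {η : ℝ} (hη : 0 < η) (Y₁ : ℕ) :
    ∃ θ : ℝ, 0 < θ ∧ ∀ (Y₂ : ℕ) (g : ℕ → ℂ) (ε : ℝ), PM g → 0 ≤ ε → Good P w Y₁ 1 g ε →
      Good P w Y₂ θ g ε → |f (LG P g (1 + (w : ℂ) / 2 + (ε : ℂ))) -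
        f (EP P g (1 + (w : ℂ) / 2 + (ε : ℂ)) Y₂)| ≤ η := by
  set r : ℝ := 9 * BB K N (Y₁ : ℝ) with hr
  have hB1 := one_le_BB (K := K) (N := N) (Y₁ : ℝ)
  have hr0 : 0 < r := by positivity
  have huc := (isCompact_closedBall (0 : ℂ) r).uniformContinuousOn_of_continuous hf.continuousOn
  obtain ⟨δ₀, hδ₀, hδ⟩ := Metric.uniformContinuousOn_iff.1 huc η hη
  refine ⟨min 1 (δ₀ / (4 * r)), by positivity, fun Y₂ g ε hg hε h1 h2 => ?_⟩
  obtain ⟨Λ₁, hΛ₁, e1⟩ := h1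
  obtain ⟨Λ₂, hΛ₂, e2⟩ := h2
  set s : ℂ := 1 + (w : ℂ) / 2 + (ε : ℂ) with hs
  have hΛ₂' : ‖Λ₂‖ ≤ 1 := hΛ₂.trans (min_le_left _ _)
  have hE1 := (EP_bounds hP hg (s := s) (by rw [hs, re_s]; linarith) (Y₁ : ℝ)).1
  have hexp1 : ‖Complex.exp Λ₁‖ ≤ Real.exp 1 := by
    rw [Complex.norm_exp]
    exact Real.exp_le_exp.2 ((Complex.re_le_norm _).trans hΛ₁)
  have hexp2 : ‖Complex.exp (-Λ₂)‖ ≤ Real.exp 1 := by
    rw [Complex.norm_exp]
    apply Real.exp_le_exp.2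
    refine (Complex.re_le_norm _).trans ?_
    rw [norm_neg]
    exact hΛ₂'
  have hL : ‖LG P g s‖ ≤ BB K N (Y₁ : ℝ) * Real.exp 1 := by
    rw [e1, norm_mul]
    exact mul_le_mul hE1 hexp1 (norm_nonneg _) (by linarith)
  have hee := ex_e
  have he1 : 1 ≤ Real.exp 1 := Real.one_le_exp (by norm_num)
  have hE2 : EP P g s Y₂ = LG P g s * Complex.exp (-Λ₂) := by
    rw [e2, mul_assoc, ← Complex.exp_add, add_neg_cancel, Complex.exp_zero, mul_one]
  have hE2' : ‖EP P g s Y₂‖ ≤ r := by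
    rw [hE2, norm_mul]
    calc _ ≤ (BB K N (Y₁ : ℝ) * Real.exp 1) * Real.exp 1 :=
          mul_le_mul hL hexp2 (norm_nonneg _) (by positivity)
      _ = BB K N (Y₁ : ℝ) * (Real.exp 1 * Real.exp 1) := by ring
      _ ≤ BB K N (Y₁ : ℝ) * 9 := mul_le_mul_of_nonneg_left hee (by linarith)
      _ = r := by rw [hr]; ring
  have hL' : ‖LG P g s‖ ≤ r := by
    refine hL.trans ?_
    rw [hr]
    have : Real.exp 1 ≤ 9 := by nlinarith
    nlinarith
  have hdist : dist (LG P g s) (EP P g s Y₂) < δ₀ := by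
    rw [dist_eq_norm]
    have h3 : LG P g s - EP P g s Y₂ = EP P g s Y₂ * (Complex.exp Λ₂ - 1) := by
      rw [e2]; ring
    rw [h3, norm_mul]
    have h4 := Complex.norm_exp_sub_one_le hΛ₂'
    have h5 : ‖Complex.exp Λ₂ - 1‖ ≤ 2 * (δ₀ / (4 * r)) :=
      h4.trans (mul_le_mul_of_nonneg_left (hΛ₂.trans (min_le_right _ _)) (by norm_num))
    calc _ ≤ r * (2 * (δ₀ / (4 * r))) := mul_le_mul hE2' h5 (norm_nonneg _) hr0.le
      _ = δ₀ / 2 := by field_simp; norm_num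
      _ < δ₀ := by linarith
  have h6 := hδ (LG P g s) (by rw [mem_closedBall_zero_iff]; exact hL') (EP P g s Y₂)
    (by rw [mem_closedBall_zero_iff]; exact hE2') hdist
  rw [Real.dist_eq] at h6
  exact h6.le

lemma tendsto_EP (hP : HW P N w) {g : ℕ → ℂ} (hg : PM g) {ε : ℝ} (hε : 0 < ε) :
    Tendsto (fun Y : ℕ => EP P g (1 + (w : ℂ) / 2 + (ε : ℂ)) (Y : ℝ)) atTop
      (𝓝 (LG P g (1 + (w : ℂ) / 2 + (ε : ℂ)))) := by
  obtain ⟨a, h1, h2, h3⟩ := hasProd_gen w P hP.c0 hP.deg hP.root (y := (1 : ℝ)) le_rfl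
  obtain ⟨Λ, Λ', e1, e2, e3⟩ := h3 g (1 + (w : ℂ) / 2 + (ε : ℂ)) hg (by rw [re_s]; linarith)
  have h4 := e1.multipliable.hasProd
  have h5 : Tendsto (fun Y : ℕ => Vy K (Y : ℝ)) atTop atTop := by
    apply tendsto_atTop_finset_of_monotone
    · intro Y Y' hYY v hv
      rw [mem_Vy] at hv ⊢
      exact hv.trans (by exact_mod_cast hYY)
    · intro v
      exact ⟨nm v, mem_Vy.2 le_rfl⟩
  exact h4.comp h5

lemma continuous_HS' (hP : HW P N w) {Y : ℕ} (S : Finset ℕ) {ε : ℝ} (h0 : 0 ≤ ε)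
    (h1 : ε ≤ 1 / 2) : Continuous fun u : UnitAddTorus (DY Y) => HS P w S u ε := by
  have h2 : Continuous fun u : UnitAddTorus (DY Y) =>
      ((⟨ε, h0, h1⟩ : Set.Icc (0 : ℝ) (1 / 2)), u) := by fun_prop
  exact ((continuous_HS hP (Y := Y) S).comp h2).congr fun u => by rw [Function.comp_apply]

section
variable {Ω : Type} [MeasurableSpace Ω] {μ : Measure Ω} {X : ℕ → Ω → ℂ}

lemma measurable_EP (hP : HW P N w) (h : Steinhaus μ X) (q Y : ℕ) {ε : ℝ} (hε : 0 ≤ ε)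
    (hε1 : ε ≤ 1 / 2) :
    Measurable fun ω => EP P (gX q X ω) (1 + (w : ℂ) / 2 + (ε : ℂ)) (Y : ℝ) := by
  obtain ⟨θ, h1, h2, h3, h4⟩ := h.angles
  have h5 : (fun ω => EP P (gX q X ω) (1 + (w : ℂ) / 2 + (ε : ℂ)) (Y : ℝ)) =
      fun ω => HS P w ((DY Y).filter fun p => p.Coprime q) (ux Y q θ ω) ε := by
    funext ω
    rw [HS_eq (pm_gX h q ω) (zS_ux Y q h4 ω)]
  rw [h5]
  have h7 := continuous_HS' hP (Y := Y) ((DY Y).filter fun p => p.Coprime q) hε hε1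
  exact h7.measurable.comp (measurable_ux Y q h1)

lemma measurable_LG (hP : HW P N w) (h : Steinhaus μ X) (q : ℕ) {ε : ℝ} (hε : 0 < ε)
    (hε1 : ε ≤ 1 / 2) :
    Measurable fun ω => LG P (gX q X ω) (1 + (w : ℂ) / 2 + (ε : ℂ)) := by
  apply measurable_of_tendsto_metrizable (fun Y => measurable_EP hP h q Y hε.le hε1)
  rw [tendsto_pi_nhds]
  intro ω
  exact tendsto_EP hP (pm_gX h q ω) hε

end

/-- **The limit law.** -/
theorem limit_law (hP : HW P N w) {A c : ℝ} (hA : 1 ≤ A) (hc : 0 < c) (hc8 : c < 1 / 8)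
    {f : ℂ → ℝ} (hf : Continuous f) {D : ℝ} (hD : ∀ z, |f z| ≤ D) {η : ℝ} (hη : 0 < η) :
    ∃ Q₀ : ℕ, ∀ (q : ℕ) [NeZero q], Q₀ ≤ q → ∀ t : ℝ, |t| ≤ (q : ℝ) ^ A →
      ∀ ε : ℝ, Real.exp (-(q : ℝ) ^ c) ≤ ε → ε ≤ 1 / 2 →
      ∀ (Ω : Type) [MeasurableSpace Ω] (μ : Measure Ω) (X : ℕ → Ω → ℂ), Steinhaus μ X →
        |(q.totient : ℝ)⁻¹ * ∑ χ : DirichletCharacter ℂ q,
            f (LG P (gch χ t) (1 + (w : ℂ) / 2 + (ε : ℂ))) -
          ∫ ω, f (LG P (gX q X ω) (1 + (w : ℂ) / 2 + (ε : ℂ))) ∂μ| ≤ η := by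
  classical
  have hD0 : 0 ≤ D := (abs_nonneg _).trans (hD 0)
  set η₁ : ℝ := η / (3 * (1 + 4 * D)) with hη₁
  have hη₁0 : 0 < η₁ := by positivity
  have hη₁e : η₁ * (1 + 4 * D) = η / 3 := by
    rw [hη₁]
    field_simp
  -- the first level
  obtain ⟨Y₁, ⟨Q₁, hQ₁⟩, hX₁⟩ := ((good_chi hP hA hc hc8 one_pos hη₁0).and
    (good_X hP one_pos hη₁0)).exists
  obtain ⟨θ, hθ, hclose⟩ := close hP hf hη₁0 Y₁
  -- the second level
  obtain ⟨Y₂, ⟨Q₂, hQ₂⟩, hX₂⟩ := ((good_chi hP hA hc hc8 hθ hη₁0).and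
    (good_X hP hθ hη₁0)).exists
  -- the frequencies
  have hfreq := fun S : Finset ℕ => exists_freq hP (Y := Y₂) S hf (by positivity : 0 < η / 3)
  choose F hF using hfreq
  set Q₃ : ℕ := (DY Y₂).powerset.sup fun S => (F S).sup fun m => sz m + 1 with hQ₃
  refine ⟨max Q₁ (max Q₂ Q₃), fun q _ hq t ht ε hε0 hε1 Ω _ μ X hX => ?_⟩
  have hqa : Q₁ ≤ q := (le_max_left _ _).trans hq
  have hqb : Q₂ ≤ q := ((le_max_left _ _).trans (le_max_right _ _)).trans hq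
  have hqc : Q₃ ≤ q := ((le_max_right _ _).trans (le_max_right _ _)).trans hq
  have hε : 0 < ε := lt_of_lt_of_le (Real.exp_pos _) hε0
  have hprob := hX.prob
  have htot := tot_pos q
  obtain ⟨τ, a1, a2, a3, a4⟩ := hX.angles
  set s : ℂ := 1 + (w : ℂ) / 2 + (ε : ℂ) with hs
  -- the characters
  have hchi : |(q.totient : ℝ)⁻¹ * ∑ χ : DirichletCharacter ℂ q, f (LG P (gch χ t) s) -
      (q.totient : ℝ)⁻¹ * ∑ χ : DirichletCharacter ℂ q, f (EP P (gch χ t) s Y₂)| ≤ η / 3 := by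
    set B₁ : Finset (DirichletCharacter ℂ q) := univ.filter fun χ => ¬ Good P w Y₁ 1 (gch χ t) ε
    set B₂ : Finset (DirichletCharacter ℂ q) := univ.filter fun χ => ¬ Good P w Y₂ θ (gch χ t) ε
    have hB₁ := hQ₁ q hqa t ht ε hε0 hε1 B₁ (fun χ hχ => (mem_filter.1 hχ).2)
    have hB₂ := hQ₂ q hqb t ht ε hε0 hε1 B₂ (fun χ hχ => (mem_filter.1 hχ).2)
    have h1 : ∀ χ : DirichletCharacter ℂ q, |f (LG P (gch χ t) s) - f (EP P (gch χ t) s Y₂)| ≤
        η₁ + ((if χ ∈ B₁ then 2 * D else 0) + (if χ ∈ B₂ then 2 * D else 0)) := by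
      intro χ
      have h2 : |f (LG P (gch χ t) s) - f (EP P (gch χ t) s Y₂)| ≤ 2 * D := by
        refine (abs_sub _ _).trans ?_
        linarith [hD (LG P (gch χ t) s), hD (EP P (gch χ t) s Y₂)]
      by_cases hb1 : χ ∈ B₁
      · rw [if_pos hb1]
        split_ifs <;> linarith
      · by_cases hb2 : χ ∈ B₂
        · rw [if_neg hb1, if_pos hb2]
          linarith
        · rw [if_neg hb1, if_neg hb2]
          have h3 : Good P w Y₁ 1 (gch χ t) ε := by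
            by_contra hcon
            exact hb1 (mem_filter.2 ⟨mem_univ _, hcon⟩)
          have h4 : Good P w Y₂ θ (gch χ t) ε := by
            by_contra hcon
            exact hb2 (mem_filter.2 ⟨mem_univ _, hcon⟩)
          have := hclose Y₂ _ ε (pm_gch χ t) hε.le h3 h4
          linarith
    rw [← mul_sub, ← sum_sub_distrib, abs_mul, abs_of_pos (by positivity : (0 : ℝ) < (q.totient : ℝ)⁻¹)]
    have h5 : |∑ χ : DirichletCharacter ℂ q, (f (LG P (gch χ t) s) - f (EP P (gch χ t) s Y₂))| ≤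
        q.totient * (η / 3) := by
      refine (abs_sum_le_sum_abs _ _).trans ((sum_le_sum fun χ _ => h1 χ).trans ?_)
      rw [sum_add_distrib, sum_add_distrib, sum_const, card_univ, card_char, nsmul_eq_mul,
        ← sum_filter, ← sum_filter, sum_const, sum_const, nsmul_eq_mul, nsmul_eq_mul]
      have h6 : (univ.filter fun χ => χ ∈ B₁) = B₁ := by ext; simp
      have h7 : (univ.filter fun χ => χ ∈ B₂) = B₂ := by ext; simp
      rw [h6, h7]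
      have h8 : (B₁.card : ℝ) * (2 * D) ≤ (η₁ * q.totient) * (2 * D) :=
        mul_le_mul_of_nonneg_right hB₁ (by positivity)
      have h9 : (B₂.card : ℝ) * (2 * D) ≤ (η₁ * q.totient) * (2 * D) :=
        mul_le_mul_of_nonneg_right hB₂ (by positivity)
      rw [← hη₁e]
      nlinarith
    calc _ ≤ (q.totient : ℝ)⁻¹ * (q.totient * (η / 3)) := mul_le_mul_of_nonneg_left h5 (by positivity)
      _ = η / 3 := by rw [← mul_assoc, inv_mul_cancel₀ htot.ne', one_mul]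
  -- the random functions
  have hmL := measurable_LG (μ := μ) hP hX q hε hε1
  have hmE := measurable_EP (μ := μ) hP hX q Y₂ hε.le hε1
  have hbd : ∀ u : Ω → ℂ, Measurable u → Integrable (fun ω => f (u ω)) μ := by
    intro u hu
    refine Integrable.of_bound (hf.measurable.comp hu).aestronglyMeasurable D ?_
    exact Eventually.of_forall fun ω => hD _
  have hXX : |∫ ω, f (EP P (gX q X ω) s Y₂) ∂μ - ∫ ω, f (LG P (gX q X ω) s) ∂μ| ≤ η / 3 := by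
    rw [← integral_sub (hbd _ hmE) (hbd _ hmL)]
    set u : Ω → ℝ := fun ω => f (EP P (gX q X ω) s Y₂) - f (LG P (gX q X ω) s) with hu
    have hum : Measurable u := (hf.measurable.comp hmE).sub (hf.measurable.comp hmL)
    set E : Set Ω := {ω | η₁ < |u ω|} with hE
    have hEm : MeasurableSet E := measurableSet_lt measurable_const hum.abs
    have hEsub : E ⊆ {ω | ¬ Good P w Y₁ 1 (gX q X ω) ε} ∪ {ω | ¬ Good P w Y₂ θ (gX q X ω) ε} := by
      intro ω hω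
      by_contra hcon
      rw [Set.mem_union, not_or] at hcon
      have h3 : Good P w Y₁ 1 (gX q X ω) ε := not_not.1 hcon.1
      have h4 : Good P w Y₂ θ (gX q X ω) ε := not_not.1 hcon.2
      have h5 := hclose Y₂ _ ε (pm_gX hX q ω) hε.le h3 h4
      have h6 : η₁ < |u ω| := hω
      rw [abs_sub_comm] at h5
      exact absurd h6 (not_lt.2 h5)
    have hEμ : μ.real E ≤ 2 * η₁ := by
      refine (measureReal_mono hEsub).trans ((measureReal_union_le _ _).trans ?_)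
      have := hX₁ Ω μ X hX q ε hε
      have := hX₂ Ω μ X hX q ε hε
      linarith
    have h7 : ∀ ω, |u ω| ≤ η₁ + E.indicator (fun _ => 2 * D) ω := by
      intro ω
      by_cases hω : ω ∈ E
      · rw [Set.indicator_of_mem hω]
        have : |u ω| ≤ 2 * D := by
          refine (abs_sub _ _).trans ?_
          linarith [hD (LG P (gX q X ω) s), hD (EP P (gX q X ω) s Y₂)]
        linarith
      · rw [Set.indicator_of_notMem hω, add_zero]
        exact not_lt.1 hω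
    have hintE : Integrable (E.indicator fun _ => 2 * D) μ := (integrable_const _).indicator hEm
    calc |∫ ω, u ω ∂μ| ≤ ∫ ω, |u ω| ∂μ := abs_integral_le_integral_abs
      _ ≤ ∫ ω, (η₁ + E.indicator (fun _ => 2 * D) ω) ∂μ :=
          integral_mono_of_nonneg (Eventually.of_forall fun _ => abs_nonneg _)
            ((integrable_const _).add hintE) (Eventually.of_forall h7)
      _ = η₁ + μ.real E * (2 * D) := by
          rw [integral_add (integrable_const _) hintE, integral_const, integral_indicator_const _ hEm]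
          simp
      _ ≤ η₁ + (2 * η₁) * (2 * D) := by
          have := mul_le_mul_of_nonneg_right hEμ (by positivity : (0 : ℝ) ≤ 2 * D)
          linarith
      _ = η / 3 := by rw [← hη₁e]; ring
  -- the torus
  have htorus : |(q.totient : ℝ)⁻¹ * ∑ χ : DirichletCharacter ℂ q, f (EP P (gch χ t) s Y₂) -
      ∫ ω, f (EP P (gX q X ω) s Y₂) ∂μ| ≤ η / 3 := by
    set S := (DY Y₂).filter fun p => p.Coprime q with hS
    have hcont := continuous_HS' hP (Y := Y₂) S hε.le hε1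
    set G : C(UnitAddTorus (DY Y₂), ℂ) :=
      ⟨fun u => (f (HS P w S u ε) : ℂ), Complex.continuous_ofReal.comp (hf.comp hcont)⟩ with hG
    have h1 := hF S (Aχ Y₂ q t) (AX μ Y₂ q τ a1) (norm_Aχ Y₂ q t) (norm_AX Y₂ q a1) (fun m hm => by
      have h2 : sz m < q := by
        have h3 : sz m + 1 ≤ (F S).sup fun m => sz m + 1 := Finset.le_sup (f := fun m => sz m + 1) hm
        have h4 : ((F S).sup fun m => sz m + 1) ≤ Q₃ :=
          Finset.le_sup (f := fun S => (F S).sup fun m => sz m + 1)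
            (mem_powerset.2 (filter_subset _ _))
        omega
      rw [Aχ_mFourier Y₂ t m h2, AX_mFourier Y₂ q a1 a2 a3 m]) ε hε.le hε1 G (fun u => rfl)
    have h5 : Aχ Y₂ q t G = (((q.totient : ℝ)⁻¹ * ∑ χ : DirichletCharacter ℂ q,
        f (EP P (gch χ t) s Y₂) : ℝ) : ℂ) := by
      change (q.totient : ℂ)⁻¹ * ∑ χ : DirichletCharacter ℂ q, G (uc Y₂ t χ) = _
      push_cast
      congr 1
      apply sum_congr rfl
      intro χ _
      change (f (HS P w S (uc Y₂ t χ) ε) : ℂ) = _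
      rw [HS_eq (pm_gch χ t) (zS_uc Y₂ t χ)]
    have h6 : AX μ Y₂ q τ a1 G = ((∫ ω, f (EP P (gX q X ω) s Y₂) ∂μ : ℝ) : ℂ) := by
      change ∫ ω, G (ux Y₂ q τ ω) ∂μ = _
      rw [← integral_complex_ofReal]
      congr 1
      funext ω
      change (f (HS P w S (ux Y₂ q τ ω) ε) : ℂ) = _
      rw [HS_eq (pm_gX hX q ω) (zS_ux Y₂ q a4 ω)]
    rw [h5, h6, ← Complex.ofReal_sub, Complex.norm_real, Real.norm_eq_abs] at h1
    exact h1
  have := abs_sub_le ((q.totient : ℝ)⁻¹ * ∑ χ : DirichletCharacter ℂ q, f (LG P (gch χ t) s))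
    ((q.totient : ℝ)⁻¹ * ∑ χ : DirichletCharacter ℂ q, f (EP P (gch χ t) s Y₂))
    (∫ ω, f (LG P (gX q X ω) s) ∂μ)
  have := abs_sub_le ((q.totient : ℝ)⁻¹ * ∑ χ : DirichletCharacter ℂ q, f (EP P (gch χ t) s Y₂))
    (∫ ω, f (EP P (gX q X ω) s Y₂) ∂μ) (∫ ω, f (LG P (gX q X ω) s) ∂μ)
  linarith

/-- **Tightness.** -/
theorem tight (hP : HW P N w) {A c : ℝ} (hA : 1 ≤ A) (hc : 0 < c) (hc8 : c < 1 / 8)
    {η : ℝ} (hη : 0 < η) :
    ∃ (B : ℝ) (Q₀ : ℕ), ∀ (q : ℕ) [NeZero q], Q₀ ≤ q → ∀ t : ℝ, |t| ≤ (q : ℝ) ^ A →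
      ∀ ε : ℝ, Real.exp (-(q : ℝ) ^ c) ≤ ε → ε ≤ 1 / 2 →
      ∃ E : Finset (DirichletCharacter ℂ q), (E.card : ℝ) ≤ η * q.totient ∧ ∀ χ ∉ E,
        |Real.log ‖LG P (gch χ t) (1 + (w : ℂ) / 2 + (ε : ℂ))‖| ≤ B := by
  classical
  obtain ⟨Y₁, Q₁, hQ₁⟩ := (good_chi hP hA hc hc8 one_pos hη).exists
  have hB1 := one_le_BB (K := K) (N := N) (Y₁ : ℝ)
  refine ⟨Real.log (BB K N (Y₁ : ℝ)) + 1, Q₁, fun q _ hq t ht ε hε0 hε1 => ?_⟩
  refine ⟨univ.filter fun χ => ¬ Good P w Y₁ 1 (gch χ t) ε,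
    hQ₁ q hq t ht ε hε0 hε1 _ (fun χ hχ => (mem_filter.1 hχ).2), fun χ hχ => ?_⟩
  have hε : 0 < ε := lt_of_lt_of_le (Real.exp_pos _) hε0
  have h1 : Good P w Y₁ 1 (gch χ t) ε := by
    by_contra hcon
    exact hχ (mem_filter.2 ⟨mem_univ _, hcon⟩)
  obtain ⟨Λ, hΛ, e⟩ := h1
  obtain ⟨h2, h3⟩ := EP_bounds hP (pm_gch χ t) (s := 1 + (w : ℂ) / 2 + (ε : ℂ))
    (by rw [re_s]; linarith) (Y₁ : ℝ)
  have h4 : 0 < ‖EP P (gch χ t) (1 + (w : ℂ) / 2 + (ε : ℂ)) Y₁‖ :=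
    lt_of_lt_of_le (by positivity) h3
  rw [e, norm_mul, Real.log_mul h4.ne' (by rw [Complex.norm_exp]; exact (Real.exp_pos _).ne'),
    Complex.norm_exp, Real.log_exp]
  have h5 := Real.log_le_log h4 h2
  have h6 := Real.log_le_log (by positivity) h3
  rw [Real.log_inv] at h6
  have h7 := abs_le.1 ((Complex.abs_re_le_norm Λ).trans hΛ)
  rw [abs_le]
  constructor <;> linarith

end

end Pool.Agent.H439.LL
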