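import Mathlib

/-!
# A lower bound for Euler's function
-/

set_option autoImplicit false

namespace Pool.Agent.H439.LL

open Finset

lemma prod_le_card (S : Finset ℕ) (h : ∀ p ∈ S, 2 ≤ p) :
    ∏ p ∈ S, p ≤ (S.card + 1) * ∏ p ∈ S, (p - 1) := by
  induction S using Finset.induction_on_max with
  | empty => simp
  | insert m S hm ih =>
    have hmS : m ∉ S := fun h0 => lt_irrefl _ (hm m h0)
    rw [prod_insert hmS, prod_insert hmS, card_insert_of_notMem hmS]
    have h1 := ih fun p hp => h p (mem_insert_of_mem hp)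
    have h2 : S.card + 2 ≤ m := by
      have h3 : S ⊆ Ico 2 m := fun p hp => mem_Ico.2 ⟨h p (mem_insert_of_mem hp), hm p hp⟩
      have h4 := card_le_card h3
      rw [Nat.card_Ico] at h4
      have h5 := h m (mem_insert_self _ _)
      omega
    obtain ⟨k, rfl⟩ : ∃ k, m = k + 1 := ⟨m - 1, by omega⟩
    rw [Nat.add_sub_cancel]
    calc (k + 1) * ∏ p ∈ S, p ≤ (k + 1) * ((S.card + 1) * ∏ p ∈ S, (p - 1)) :=
          Nat.mul_le_mul_left _ h1
      _ = ((k + 1) * (S.card + 1)) * ∏ p ∈ S, (p - 1) := by ring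
      _ ≤ ((S.card + 1 + 1) * k) * ∏ p ∈ S, (p - 1) := by
          apply Nat.mul_le_mul_right
          nlinarith
      _ = _ := by ring

lemma le_totient {n : ℕ} (hn : 0 < n) : (n : ℝ) ≤ n.totient * (Real.log n / Real.log 2 + 1) := by
  have h1 := Nat.totient_mul_prod_primeFactors n
  have h2 := prod_le_card n.primeFactors fun p hp => (Nat.prime_of_mem_primeFactors hp).two_le
  have h3 : 0 < ∏ p ∈ n.primeFactors, (p - 1) := by
    apply prod_pos
    intro p hp
    have := (Nat.prime_of_mem_primeFactors hp).two_le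
    omega
  have h4 : n ≤ n.totient * (n.primeFactors.card + 1) := by
    have h5 : n * ∏ p ∈ n.primeFactors, (p - 1) ≤
        (n.totient * (n.primeFactors.card + 1)) * ∏ p ∈ n.primeFactors, (p - 1) := by
      rw [← h1, mul_assoc]
      exact Nat.mul_le_mul_left _ h2
    exact Nat.le_of_mul_le_mul_right h5 h3
  have h6 : 2 ^ n.primeFactors.card ≤ n := by
    calc 2 ^ n.primeFactors.card = ∏ p ∈ n.primeFactors, 2 := by rw [prod_const]
      _ ≤ ∏ p ∈ n.primeFactors, p :=
          prod_le_prod' fun p hp => (Nat.prime_of_mem_primeFactors hp).two_le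
      _ ≤ n := Nat.le_of_dvd hn (Nat.prod_primeFactors_dvd n)
  have hl2 : 0 < Real.log 2 := Real.log_pos (by norm_num)
  have h7 : (n.primeFactors.card : ℝ) ≤ Real.log n / Real.log 2 := by
    rw [le_div_iff₀ hl2, ← Real.log_pow]
    apply Real.log_le_log (by positivity)
    exact_mod_cast h6
  have h8 : (n : ℝ) ≤ n.totient * ((n.primeFactors.card : ℝ) + 1) := by exact_mod_cast h4
  refine h8.trans ?_
  apply mul_le_mul_of_nonneg_left _ (Nat.cast_nonneg _)
  linarith

end Pool.Agent.H439.LL
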