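import Pool.Agent.H439.LL.Tw
import Pool.Agent.H439.LL.Tot

/-!
# Averages over the Dirichlet characters modulo `q`
-/

set_option autoImplicit false

namespace Pool.Agent.H439.LL

open Finset Complex ComplexConjugate Pool.Agent.H439.LS Pool.Agent.H439.SP

lemma conj_char {q : ℕ} [NeZero q] (χ : DirichletCharacter ℂ q) {a : ZMod q} (ha : IsUnit a) :
    conj (χ a) = χ a⁻¹ := by
  have h1 : χ a⁻¹ * χ a = 1 := by
    rw [← map_mul, ZMod.inv_mul_of_unit a ha, map_one]
  have h2 : ‖χ a‖ = 1 := by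
    obtain ⟨u, rfl⟩ := ha
    exact χ.unit_norm_eq_one u
  have h3 : conj (χ a) * χ a = 1 := by
    rw [conj_mul', h2]
    norm_num
  have h4 : χ a ≠ 0 := by
    intro h
    rw [h, norm_zero] at h2
    exact zero_ne_one h2
  exact mul_right_cancel₀ h4 (h3.trans h1.symm)

lemma orth {q : ℕ} [NeZero q] {a b : ℕ} (ha : a.Coprime q) (haq : a < q) (hbq : b < q) :
    ∑ χ : DirichletCharacter ℂ q, conj (χ a) * χ b = if a = b then (q.totient : ℂ) else 0 := by
  have hu : IsUnit (a : ZMod q) := (ZMod.isUnit_iff_coprime a q).2 ha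
  have h1 := DirichletCharacter.sum_char_inv_mul_char_eq ℂ hu (b : ZMod q)
  rw [sum_congr rfl fun χ _ => by rw [conj_char χ hu], h1]
  have h2 : ((a : ZMod q) = (b : ZMod q)) ↔ a = b := by
    constructor
    · intro h
      have := (ZMod.natCast_eq_natCast_iff' a b q).1 h
      rwa [Nat.mod_eq_of_lt haq, Nat.mod_eq_of_lt hbq] at this
    · rintro rfl; rfl
  by_cases h : a = b
  · rw [if_pos h, if_pos (h2.2 h)]
  · rw [if_neg h, if_neg (fun h' => h (h2.1 h'))]

lemma mean_sq {q : ℕ} [NeZero q] (T : Finset ℕ) (hT : ∀ p ∈ T, p < q) (b : ℕ → ℂ) :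
    ∑ χ : DirichletCharacter ℂ q, ‖∑ p ∈ T, b p * χ p‖ ^ 2 ≤
      q.totient * ∑ p ∈ T, ‖b p‖ ^ 2 := by
  classical
  set T' := T.filter (fun p => p.Coprime q) with hT'
  have h1 : ∀ χ : DirichletCharacter ℂ q, ∑ p ∈ T, b p * χ p = ∑ p ∈ T', b p * χ p := by
    intro χ
    rw [hT', sum_filter]
    apply sum_congr rfl
    intro p _
    split_ifs with h
    · rfl
    · have : χ (p : ZMod q) = 0 := by
        apply MulChar.map_nonunit
        rw [ZMod.isUnit_iff_coprime]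
        exact h
      rw [this, mul_zero]
  have h2 : ((∑ χ : DirichletCharacter ℂ q, ‖∑ p ∈ T, b p * χ p‖ ^ 2 : ℝ) : ℂ) =
      q.totient * ∑ p ∈ T', (‖b p‖ : ℂ) ^ 2 := by
    push_cast
    have h3 : ∀ χ : DirichletCharacter ℂ q, (‖∑ p ∈ T, b p * χ p‖ : ℂ) ^ 2 =
        ∑ p ∈ T', ∑ r ∈ T', conj (b p) * b r * (conj (χ p) * χ r) := by
      intro χ
      rw [h1, ← conj_mul', map_sum, sum_mul_sum]
      apply sum_congr rfl
      intro p _
      apply sum_congr rfl
      intro r _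
      rw [map_mul]
      ring
    rw [sum_congr rfl fun χ _ => h3 χ, sum_comm, mul_sum]
    apply sum_congr rfl
    intro p hp
    rw [sum_comm]
    have h4 : ∀ r ∈ T', ∑ χ : DirichletCharacter ℂ q, conj (b p) * b r * (conj (χ p) * χ r) =
        if p = r then conj (b p) * b r * (q.totient : ℂ) else 0 := by
      intro r hr
      rw [← mul_sum, orth (mem_filter.1 hp).2 (hT p (mem_filter.1 hp).1)
        (hT r (mem_filter.1 hr).1)]
      split_ifs <;> simp
    rw [sum_congr rfl h4, sum_ite_eq, if_pos hp, conj_mul']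
    ring
  have h5 : ∑ χ : DirichletCharacter ℂ q, ‖∑ p ∈ T, b p * χ p‖ ^ 2 =
      q.totient * ∑ p ∈ T', ‖b p‖ ^ 2 := by
    exact_mod_cast h2
  rw [h5]
  apply mul_le_mul_of_nonneg_left _ (Nat.cast_nonneg _)
  exact sum_le_sum_of_subset_of_nonneg (filter_subset _ _) fun _ _ _ => by positivity

/-- Chebyshev's inequality -/
lemma cheb {α : Type*} (S : Finset α) (f : α → ℝ) (hf : ∀ x ∈ S, 0 ≤ f x) {θ : ℝ} (hθ : 0 < θ)
    [DecidablePred fun x => θ ≤ f x] :
    ((S.filter fun x => θ ≤ f x).card : ℝ) * θ ^ 2 ≤ ∑ x ∈ S, f x ^ 2 := by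
  have h1 : ((S.filter fun x => θ ≤ f x).card : ℝ) * θ ^ 2 =
      ∑ x ∈ S.filter (fun x => θ ≤ f x), θ ^ 2 := by
    rw [sum_const, nsmul_eq_mul]
  rw [h1]
  refine (sum_le_sum fun x hx => ?_).trans
    (sum_le_sum_of_subset_of_nonneg (filter_subset _ _) fun _ _ _ => by positivity)
  exact pow_le_pow_left₀ hθ.le (mem_filter.1 hx).2 2

/-- the character with a vertical shift -/
noncomputable def gch {q : ℕ} (χ : DirichletCharacter ℂ q) (t : ℝ) (n : ℕ) : ℂ :=
  χ n * ph (-t) n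

lemma pm_gch {q : ℕ} (χ : DirichletCharacter ℂ q) (t : ℝ) : PM (gch χ t) := by
  constructor
  · intro p hp k
    unfold gch
    rw [mul_pow, Nat.cast_pow, map_pow]
    congr 1
    induction k with
    | zero => simp [ph]
    | succ k ih => rw [pow_succ, ph_mul, ih, pow_succ]
  · intro p hp
    unfold gch
    rw [norm_mul, norm_ph _ hp.pos, mul_one]
    exact χ.norm_le_one _

lemma PG_gch (a : ℕ → ℂ) {q : ℕ} (χ : DirichletCharacter ℂ q) (t ε : ℝ) :
    PG a (gch χ t) (1 + (ε : ℂ)) = PS a χ (1 + (ε : ℂ) + (t : ℂ) * I) := by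
  unfold PG PS
  apply tsum_congr
  intro p
  rw [cpow_split p.2.pos]
  have h1 : ((p : ℕ) : ℂ) ^ (-(1 + (ε : ℂ))) = ((((p : ℕ) : ℝ) ^ (-(1 + ε)) : ℝ) : ℂ) := by
    rw [Complex.ofReal_cpow (Nat.cast_nonneg _)]
    push_cast
    rfl
  rw [h1]
  unfold gch
  ring

end Pool.Agent.H439.LL
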