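import Pool.Agent.H439.LL.Chars

/-!
# The large primes: all but few characters modulo `q`
-/

set_option autoImplicit false

namespace Pool.Agent.H439.LL

open Finset Complex ComplexConjugate Filter Topology Pool.Agent.H439.LS Pool.Agent.H439.SP

lemma sum_sq_le {Y : ℕ} (hY : 1 ≤ Y) (Z : ℕ) : ∑ n ∈ Ioc Y Z, 1 / (n : ℝ) ^ 2 ≤ 1 / (Y : ℝ) := by
  rcases lt_or_ge Z Y with h | h
  · rw [Ioc_eq_empty (by omega), sum_empty]
    positivity
  · have key : ∑ n ∈ Ioc Y Z, 1 / (n : ℝ) ^ 2 ≤ 1 / (Y : ℝ) - 1 / (Z : ℝ) := by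
      induction Z, h using Nat.le_induction with
      | base => simp
      | succ n hn ih =>
        rw [← Finset.insert_Ioc_right_eq_Ioc_add_one (by omega), sum_insert (by simp)]
        have h1 : (1 : ℝ) ≤ n := by exact_mod_cast hY.trans hn
        have h2 : 1 / (((n + 1 : ℕ)) : ℝ) ^ 2 ≤ 1 / (n : ℝ) - 1 / ((n + 1 : ℕ) : ℝ) := by
          push_cast
          rw [div_sub_div _ _ (by positivity) (by positivity),
            div_le_div_iff₀ (by positivity) (by positivity)]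
          nlinarith
        linarith
    have : (0 : ℝ) ≤ 1 / (Z : ℝ) := by positivity
    linarith

lemma summable_PG {a : ℕ → ℂ} {M : ℝ} (ha : ∀ p : ℕ, p.Prime → ‖a p‖ ≤ M) {g : ℕ → ℂ}
    (hg : PM g) {s : ℂ} (hs : 1 < s.re) :
    Summable fun p : Nat.Primes => a p * (g p * ((p : ℕ) : ℂ) ^ (-s)) := by
  have hM0 : 0 ≤ M := (norm_nonneg _).trans (ha 2 Nat.prime_two)
  refine Summable.of_norm_bounded (g := fun p : Nat.Primes => M * ((p : ℕ) : ℝ) ^ (-s.re))
    ((Nat.Primes.summable_rpow.2 (by linarith)).mul_left M) fun p => ?_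
  rw [norm_mul, norm_mul, norm_natCast_cpow_of_pos p.2.pos, neg_re]
  have h11 : 0 ≤ ((p : ℕ) : ℝ) ^ (-s.re) := Real.rpow_nonneg (Nat.cast_nonneg _) _
  calc _ ≤ M * (1 * ((p : ℕ) : ℝ) ^ (-s.re)) := by
        apply mul_le_mul (ha p p.2) _ (by positivity) hM0
        exact mul_le_mul_of_nonneg_right (hg.le p p.2) h11
    _ = _ := by ring

/-- the primes in an interval -/
noncomputable def TT (Y : ℕ) (z : ℝ) : Finset ℕ := (Ioc Y ⌊z⌋₊).filter Nat.Prime

open Classical in
/-- the coefficients beyond `z` -/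
noncomputable def cut (a : ℕ → ℂ) (z : ℝ) (p : ℕ) : ℂ := if (p : ℝ) ≤ z then 0 else a p

lemma norm_cut {a : ℕ → ℂ} {M : ℝ} (ha : ∀ p : ℕ, p.Prime → ‖a p‖ ≤ M) (z : ℝ) :
    ∀ p : ℕ, p.Prime → ‖cut a z p‖ ≤ M := by
  intro p hp
  unfold cut
  split_ifs
  · rw [norm_zero]
    exact (norm_nonneg _).trans (ha 2 Nat.prime_two)
  · exact ha p hp

lemma PG_split {a : ℕ → ℂ} {M : ℝ} (ha : ∀ p : ℕ, p.Prime → ‖a p‖ ≤ M) {Y : ℕ}
    (hY : ∀ p : ℕ, p.Prime → p ≤ Y → a p = 0) {z : ℝ} (hz : 0 ≤ z) {g : ℕ → ℂ}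
    (hg : PM g) {s : ℂ} (hs : 1 < s.re) :
    PG a g s = ∑ p ∈ TT Y z, a p * (g p * (p : ℂ) ^ (-s)) + PG (cut a z) g s := by
  classical
  have h1 := summable_PG ha hg hs
  have h2 := summable_PG (norm_cut ha z) hg hs
  have h3 : PG a g s - PG (cut a z) g s = ∑' p : Nat.Primes,
      (a p * (g p * ((p : ℕ) : ℂ) ^ (-s)) - cut a z p * (g p * ((p : ℕ) : ℂ) ^ (-s))) := by
    unfold PG
    exact (h1.tsum_sub h2).symm
  set f : ℕ → ℂ := fun p => a p * (g p * (p : ℂ) ^ (-s)) - cut a z p * (g p * (p : ℂ) ^ (-s)) with hf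
  have h4 : ∑' p : Nat.Primes, f p = ∑' n : ℕ, Set.indicator {p : ℕ | p.Prime} f n :=
    tsum_subtype {p : ℕ | p.Prime} f
  have h5 : ∀ n ∉ TT Y z, Set.indicator {p : ℕ | p.Prime} f n = 0 := by
    intro n hn
    by_cases hp : n.Prime
    · rw [Set.indicator_of_mem (by exact hp)]
      unfold TT at hn
      rw [mem_filter, mem_Ioc, not_and] at hn
      have h6 : n ≤ Y ∨ ⌊z⌋₊ < n := by
        by_contra hc
        rw [not_or] at hc
        exact hn ⟨by omega, by omega⟩ hp
      simp only [hf]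
      rcases h6 with h6 | h6
      · have h7 := hY n hp h6
        have h8 : cut a z n = 0 := by
          unfold cut
          split_ifs
          · rfl
          · exact h7
        rw [h7, h8]
        ring
      · have h7 : z < n := (Nat.floor_lt hz).1 h6
        have h8 : cut a z n = a n := by
          unfold cut
          rw [if_neg (not_le.2 h7)]
        rw [h8]
        ring
    · rw [Set.indicator_of_notMem (by exact hp)]
  rw [h4, tsum_eq_sum h5] at h3
  have h9 : ∑ n ∈ TT Y z, Set.indicator {p : ℕ | p.Prime} f n =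
      ∑ p ∈ TT Y z, a p * (g p * (p : ℂ) ^ (-s)) := by
    apply sum_congr rfl
    intro n hn
    unfold TT at hn
    rw [mem_filter, mem_Ioc] at hn
    rw [Set.indicator_of_mem (by exact hn.2)]
    simp only [hf]
    have h10 : (n : ℝ) ≤ z := by
      refine le_trans ?_ (Nat.floor_le hz)
      exact_mod_cast hn.1.2
    unfold cut
    rw [if_pos h10]
    ring
  rw [h9] at h3
  linear_combination h3

/-- **The large primes, for the characters modulo `q`.** -/
theorem chi_tail {δ A M θ : ℝ} (hδ : 0 < δ) (hδ1 : δ ≤ 1) (hA : 1 ≤ A) (hM : 0 < M) (hθ : 0 < θ)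
    {Y : ℕ} (hY : 1 ≤ Y) :
    ∃ Q₀ : ℕ, ∀ (q : ℕ) [NeZero q], Q₀ ≤ q → ∀ t : ℝ, |t| ≤ (q : ℝ) ^ A → ∀ ε : ℝ,
      Real.exp (-(q : ℝ) ^ (δ / 8)) ≤ ε → ε ≤ 1 / 2 → ∀ a : ℕ → ℂ,
      (∀ p : ℕ, p.Prime → ‖a p‖ ≤ M) → (∀ p : ℕ, p.Prime → p ≤ Y → a p = 0) →
      ∀ B : Finset (DirichletCharacter ℂ q), (∀ χ ∈ B, θ ≤ ‖PG a (gch χ t) (1 + (ε : ℂ))‖) →
      (B.card : ℝ) ≤ (q : ℝ) ^ δ + q.totient * (4 * M ^ 2 / (Y * θ ^ 2)) := by
  classical
  have hA0 : 0 < A := by linarith
  set δ' : ℝ := δ / A with hδ'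
  have hδ'0 : 0 < δ' := by positivity
  have hδ'1 : δ' ≤ 1 := by
    rw [hδ', div_le_one hA0]
    linarith
  have hev := short_PS hδ'0 hδ'1 hM
  have hlog : Tendsto (fun q : ℕ => A * Real.log (q : ℝ)) atTop atTop :=
    (Real.tendsto_log_atTop.comp tendsto_natCast_atTop_atTop).const_mul_atTop hA0
  have hz : ∀ᶠ q : ℕ in atTop, (A * Real.log (q : ℝ)) ^ (240 / δ') < (q : ℝ) := by
    have h1 := (isLittleO_log_rpow_rpow_atTop (240 / δ') one_pos)
    have h2 : Tendsto (fun x : ℝ => Real.log x ^ (240 / δ') / x ^ (1 : ℝ)) atTop (𝓝 0) :=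
      h1.tendsto_div_nhds_zero
    have h3 : Tendsto (fun q : ℕ => A ^ (240 / δ') * (Real.log (q : ℝ) ^ (240 / δ') / (q : ℝ) ^ (1 : ℝ)))
        atTop (𝓝 (A ^ (240 / δ') * 0)) :=
      (h2.comp tendsto_natCast_atTop_atTop).const_mul _
    rw [mul_zero] at h3
    filter_upwards [h3.eventually (gt_mem_nhds one_pos), eventually_ge_atTop 2] with q hq hq2
    have hq0 : (0 : ℝ) < q := by exact_mod_cast (by omega : 0 < q)
    have hlq : 0 ≤ Real.log q := Real.log_natCast_nonneg q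
    rw [Real.rpow_one, ← mul_div_assoc, div_lt_one hq0] at hq
    rw [Real.mul_rpow hA0.le hlq]
    exact hq
  obtain ⟨Q₀, hQ₀⟩ := eventually_atTop.1 ((hlog.eventually hev).and (hz.and
    ((hlog.eventually (eventually_ge_atTop (1 / (2 * θ)))).and
      ((hlog.eventually (eventually_ge_atTop 1)).and (eventually_ge_atTop 2)))))
  refine ⟨Q₀, fun q _ hq t ht ε hε0 hε1 a ha haY B hB => ?_⟩
  obtain ⟨hshort, hzq, hℓθ, hℓ1, hq2⟩ := hQ₀ q hq
  set ℓ : ℝ := A * Real.log (q : ℝ) with hℓ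
  have hq0 : (0 : ℝ) < q := by exact_mod_cast (by omega : 0 < q)
  have hq1 : (1 : ℝ) ≤ q := by exact_mod_cast (by omega : 1 ≤ q)
  have hexp : ∀ x : ℝ, Real.exp (x * Real.log q) = (q : ℝ) ^ x := by
    intro x
    rw [Real.rpow_def_of_pos hq0, mul_comm]
  have hεpos : 0 < ε := lt_of_lt_of_le (Real.exp_pos _) hε0
  have hℓ0 : 0 < ℓ := by linarith
  set z : ℝ := ℓ ^ (240 / δ') with hzdef
  have hz0 : 0 ≤ z := Real.rpow_nonneg hℓ0.le _
  have hre : 1 < (1 + (ε : ℂ)).re := by simp; exact hεpos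
  -- the splitting
  have hsplit : ∀ χ : DirichletCharacter ℂ q, PG a (gch χ t) (1 + (ε : ℂ)) =
      ∑ p ∈ TT Y z, (a p * (ph (-t) p * (p : ℂ) ^ (-(1 + (ε : ℂ))))) * χ p +
        PS (cut a z) χ (1 + (ε : ℂ) + (t : ℂ) * I) := by
    intro χ
    rw [PG_split ha haY hz0 (pm_gch χ t) hre, PG_gch]
    congr 1
    apply sum_congr rfl
    intro p _
    unfold gch
    ring
  set b : ℕ → ℂ := fun p => a p * (ph (-t) p * (p : ℂ) ^ (-(1 + (ε : ℂ)))) with hb
  set B₁ := B.filter fun χ => θ / 2 ≤ ‖∑ p ∈ TT Y z, b p * χ p‖ with hB₁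
  set B₂ := B.filter fun χ => ¬ θ / 2 ≤ ‖∑ p ∈ TT Y z, b p * χ p‖ with hB₂
  have hcard : (B.card : ℝ) = B₁.card + B₂.card := by
    rw [← Nat.cast_add, card_filter_add_card_filter_not]
  -- the first part
  have h1 : (B₁.card : ℝ) ≤ q.totient * (4 * M ^ 2 / (Y * θ ^ 2)) := by
    have h2 := cheb (univ : Finset (DirichletCharacter ℂ q)) (fun χ => ‖∑ p ∈ TT Y z, b p * χ p‖)
      (fun _ _ => norm_nonneg _) (half_pos hθ)
    have h3 := mean_sq (q := q) (TT Y z) (fun p hp => by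
      unfold TT at hp
      rw [mem_filter, mem_Ioc] at hp
      have h4 : (p : ℝ) ≤ z := by
        refine le_trans ?_ (Nat.floor_le hz0)
        exact_mod_cast hp.1.2
      exact_mod_cast lt_of_le_of_lt h4 hzq) b
    have h4 : ∑ p ∈ TT Y z, ‖b p‖ ^ 2 ≤ M ^ 2 / Y := by
      have h5 : ∀ p ∈ TT Y z, ‖b p‖ ^ 2 ≤ M ^ 2 * (1 / (p : ℝ) ^ 2) := by
        intro p hp
        unfold TT at hp
        rw [mem_filter, mem_Ioc] at hp
        have hp0 : (0 : ℝ) < p := by exact_mod_cast hp.2.pos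
        simp only [hb]
        rw [norm_mul, norm_mul, norm_ph _ hp.2.pos, one_mul, norm_natCast_cpow_of_pos hp.2.pos,
          mul_pow]
        apply mul_le_mul (pow_le_pow_left₀ (norm_nonneg _) (ha p hp.2) 2) _ (by positivity)
          (by positivity)
        rw [one_div, ← inv_pow]
        apply pow_le_pow_left₀ (by positivity)
        rw [← Real.rpow_neg_one]
        apply Real.rpow_le_rpow_of_exponent_le (by exact_mod_cast hp.2.one_le)
        simp
        exact hεpos.le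
      refine (sum_le_sum h5).trans ?_
      rw [← mul_sum, div_eq_mul_one_div]
      apply mul_le_mul_of_nonneg_left _ (by positivity)
      refine le_trans ?_ (sum_sq_le hY ⌊z⌋₊)
      apply sum_le_sum_of_subset_of_nonneg
      · exact filter_subset _ _
      · intro _ _ _
        positivity
    have h5 : (B₁.card : ℝ) ≤ ((univ.filter fun χ : DirichletCharacter ℂ q =>
        θ / 2 ≤ ‖∑ p ∈ TT Y z, b p * χ p‖).card : ℝ) := by
      exact_mod_cast card_le_card (filter_subset_filter _ (subset_univ _))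
    have h6 : (B₁.card : ℝ) * (θ / 2) ^ 2 ≤ q.totient * (M ^ 2 / Y) := by
      refine le_trans (mul_le_mul_of_nonneg_right h5 (by positivity)) (h2.trans (h3.trans ?_))
      exact mul_le_mul_of_nonneg_left h4 (Nat.cast_nonneg _)
    have hY0 : (0 : ℝ) < Y := by exact_mod_cast hY
    have h7 : (q.totient : ℝ) * (4 * M ^ 2 / (Y * θ ^ 2)) * (θ / 2) ^ 2 =
        q.totient * (M ^ 2 / Y) := by
      field_simp
      ring
    rw [← h7] at h6
    exact le_of_mul_le_mul_right h6 (by positivity)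
  -- the second part
  have h2 : (B₂.card : ℝ) ≤ (q : ℝ) ^ δ := by
    set e := B₂.equivFin with he
    have hmem : ∀ j : Fin B₂.card, ((e.symm j : B₂) : DirichletCharacter ℂ q) ∈ B₂ := fun j =>
      (e.symm j).2
    have hsp : Spaced (fun _ : Fin B₂.card => q) (fun j => ((e.symm j : B₂) : DirichletCharacter ℂ q))
        (fun _ => t) := by
      refine ⟨fun _ => by omega, fun j k hjk hag => ?_⟩
      exfalso
      apply hjk
      apply e.symm.injective
      apply Subtype.ext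
      apply MulChar.ext
      intro u
      obtain ⟨n, hn⟩ : ∃ n : ℕ, (n : ZMod q) = (u : ZMod q) :=
        ⟨(u : ZMod q).val, ZMod.natCast_zmod_val _⟩
      have hc : n.Coprime q := by
        rw [← ZMod.isUnit_iff_coprime, hn]
        exact u.isUnit
      have := hag n (Nat.Coprime.mul_right hc hc)
      rw [← hn]
      exact this
    have h3 := hshort B₂.card (fun _ => q) (fun j => ((e.symm j : B₂) : DirichletCharacter ℂ q))
      (fun _ => t) hsp
      (fun _ => by
        rw [hℓ, hexp]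
        calc (q : ℝ) = (q : ℝ) ^ (1 : ℝ) := (Real.rpow_one _).symm
          _ ≤ _ := Real.rpow_le_rpow_of_exponent_le hq1 hA)
      (fun _ => by rw [hℓ, hexp]; exact ht) (fun _ => ε)
      (fun _ => by
        have h4 : δ' * ℓ / 8 = δ / 8 * Real.log q := by
          rw [hδ', hℓ]
          field_simp
        rw [h4, hexp]
        exact hε0) (fun _ => hε1) (cut a z) (norm_cut ha z)
      (fun p _ hpz => by
        unfold cut
        rw [if_pos hpz])
      (fun j => by
        have h4 := mem_filter.1 (hmem j)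
        have h5 := hB _ h4.1
        rw [hsplit] at h5
        have h6 := norm_add_le (∑ p ∈ TT Y z, b p * ((e.symm j : B₂) : DirichletCharacter ℂ q) p)
          (PS (cut a z) ((e.symm j : B₂) : DirichletCharacter ℂ q) (1 + (ε : ℂ) + (t : ℂ) * I))
        have h7 : 1 / (4 * ℓ) ≤ θ / 2 := by
          rw [div_le_iff₀ (by positivity)] at hℓθ ⊢
          linarith
        have h8 := h4.2
        rw [not_le] at h8
        linarith)
    have h4 : δ' * ℓ = δ * Real.log q := by
      rw [hδ', hℓ]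
      field_simp
    rw [h4, hexp] at h3
    exact h3
  rw [hcard]
  linarith

end Pool.Agent.H439.LL
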