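import Pool.Agent.H439.LL.Main

/-!
# Large deviations for the characters modulo `q`
-/

set_option autoImplicit false

namespace Pool.Agent.H439.LL

open Finset Complex ComplexConjugate Filter Topology NumberField IsDedekindDomain Polynomial
  Pool.Agent.TH339.MP Pool.Agent.H439.LS Pool.Agent.H439.SP

/-- **High moments over the characters modulo `q`.** -/
lemma moment_chi {q : ℕ} [NeZero q] {S : Finset ℕ} (hS : ∀ p ∈ S, p.Prime) {b k : ℕ}
    (hb : ∀ p ∈ S, p ≤ b) (hb1 : 1 ≤ b) (hk : b ^ k < q) (c : ℕ → ℂ) :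
    ∑ χ : DirichletCharacter ℂ q, (‖∑ p ∈ S, c p * χ p‖ ^ k) ^ 2 ≤
      q.totient * (k.factorial * (∑ p ∈ S, ‖c p‖ ^ 2) ^ k) := by
  have h1 : ∀ χ : DirichletCharacter ℂ q, (‖∑ p ∈ S, c p * χ p‖ ^ k) ^ 2 =
      ‖∑ n ∈ range (b ^ k + 1), DP S c k n * χ n‖ ^ 2 := by
    intro χ
    rw [DP_pow (c := c) hS hb hb1 (g := fun n => χ (n : ZMod q)) (by simp)
      (fun p _ m _ => by push_cast; rw [map_mul]) k _ (Nat.lt_succ_self _), norm_pow]
  rw [sum_congr rfl fun χ _ => h1 χ]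
  refine (mean_sq (range (b ^ k + 1)) (fun p hp => ?_) (DP S c k)).trans ?_
  · rw [mem_range] at hp
    omega
  · exact mul_le_mul_of_nonneg_left (DP_l2 c hS k _) (Nat.cast_nonneg _)

lemma fact_le (k : ℕ) : (k.factorial : ℝ) ≤ (k : ℝ) ^ k := by
  exact_mod_cast Nat.factorial_le_pow k

/-- **The large primes, large deviations.** -/
theorem chi_dev {δ A : ℝ} (hδ : 0 < δ) (hδ1 : δ ≤ 1) (hA : 1 ≤ A) :
    ∃ Q₀ : ℕ, ∀ (q : ℕ) [NeZero q], Q₀ ≤ q → ∀ t : ℝ, |t| ≤ (q : ℝ) ^ A → ∀ ε : ℝ,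
      Real.exp (-(q : ℝ) ^ (δ / 8)) ≤ ε → ε ≤ 1 / 2 → ∀ Y : ℕ, 3 ≤ Y →
      (Y : ℝ) ≤ δ / (320 * A) * (Real.log q / Real.log (Real.log q)) → ∀ a : ℕ → ℂ,
      (∀ p : ℕ, p.Prime → ‖a p‖ ≤ 1) → (∀ p : ℕ, p.Prime → p ≤ Y → a p = 0) →
      ∀ B : Finset (DirichletCharacter ℂ q),
        (∀ χ ∈ B, 2 ≤ ‖PS a χ (1 + (ε : ℂ) + (t : ℂ) * I)‖) →
        (B.card : ℝ) ≤ (q : ℝ) ^ δ + q.totient * Real.exp (1 - Y / 3) := by
  classical
  have hA0 : 0 < A := by linarith
  set δ' : ℝ := δ / A with hδ'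
  have hδ'0 : 0 < δ' := by positivity
  have hδ'1 : δ' ≤ 1 := by
    rw [hδ', div_le_one hA0]
    linarith
  have hev := short_PS hδ'0 hδ'1 one_pos
  have hlogn : Tendsto (fun q : ℕ => Real.log (q : ℝ)) atTop atTop :=
    Real.tendsto_log_atTop.comp tendsto_natCast_atTop_atTop
  have hlog : Tendsto (fun q : ℕ => A * Real.log (q : ℝ)) atTop atTop := hlogn.const_mul_atTop hA0
  have hll : Tendsto (fun q : ℕ => Real.log (Real.log (q : ℝ))) atTop atTop :=
    Real.tendsto_log_atTop.comp hlogn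
  obtain ⟨Q₀, hQ₀⟩ := eventually_atTop.1 ((hlog.eventually hev).and
    ((hll.eventually (eventually_ge_atTop (1 + Real.log A))).and
      ((hlogn.eventually (eventually_ge_atTop 1)).and (eventually_ge_atTop 2))))
  refine ⟨Q₀, fun q _ hq t ht ε hε0 hε1 Y hY3 hYc a ha haY B hB => ?_⟩
  obtain ⟨hshort, hllq, hlq1, hq2⟩ := hQ₀ q hq
  set ℓ : ℝ := A * Real.log (q : ℝ) with hℓ
  have hq0 : (0 : ℝ) < q := by exact_mod_cast (by omega : 0 < q)
  have hq1 : (1 : ℝ) ≤ q := by exact_mod_cast (by omega : 1 ≤ q)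
  have hlogA : 0 ≤ Real.log A := Real.log_nonneg hA
  have hexp : ∀ x : ℝ, Real.exp (x * Real.log q) = (q : ℝ) ^ x := by
    intro x
    rw [Real.rpow_def_of_pos hq0, mul_comm]
  have hεpos : 0 < ε := lt_of_lt_of_le (Real.exp_pos _) hε0
  have hlq0 : 0 < Real.log q := by linarith
  have hll0 : 0 < Real.log (Real.log q) := by linarith
  have hℓ0 : 0 < ℓ := by positivity
  have hℓ1 : 1 ≤ ℓ := by
    rw [hℓ]
    nlinarith
  set z : ℝ := ℓ ^ (240 / δ') with hzdef
  have hz1 : 1 ≤ z := Real.one_le_rpow hℓ1 (by positivity)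
  have hz0 : 0 ≤ z := by linarith
  have hre : 1 < (1 + (ε : ℂ)).re := by simp; exact hεpos
  -- the number of factors
  set k : ℕ := Y / 3 with hk
  have hk1 : 1 ≤ k := by omega
  have hkY : (k : ℝ) ≤ Y / 3 := by
    rw [hk]
    exact Nat.cast_div_le
  have hkY' : (Y : ℝ) / 3 - 1 ≤ k := by
    have h1 : Y < 3 * k + 3 := by omega
    have h2 : (Y : ℝ) < 3 * k + 3 := by exact_mod_cast h1
    linarith
  have hzb1 : 1 ≤ ⌊z⌋₊ := Nat.le_floor (by exact_mod_cast hz1)
  have hzk : ⌊z⌋₊ ^ k < q := by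
    have h1 : ((⌊z⌋₊ : ℕ) : ℝ) ^ k ≤ z ^ k :=
      pow_le_pow_left₀ (Nat.cast_nonneg _) (Nat.floor_le hz0) k
    have h2 : Real.log (z ^ k) < Real.log q := by
      rw [Real.log_pow, hzdef, Real.log_rpow hℓ0, hℓ, Real.log_mul hA0.ne' hlq0.ne']
      have h3 : Real.log A + Real.log (Real.log q) ≤ 2 * Real.log (Real.log q) := by linarith
      have h4 : (k : ℝ) ≤ δ / (960 * A) * (Real.log q / Real.log (Real.log q)) := by
        refine hkY.trans ?_
        have h5 : δ / (960 * A) * (Real.log q / Real.log (Real.log q)) =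
            (δ / (320 * A) * (Real.log q / Real.log (Real.log q))) / 3 := by
          field_simp
          norm_num
        rw [h5]
        linarith
      have h6 : (k : ℝ) * (240 / δ' * (Real.log A + Real.log (Real.log q))) ≤
          (δ / (960 * A) * (Real.log q / Real.log (Real.log q))) *
            (240 / δ' * (2 * Real.log (Real.log q))) := by
        apply mul_le_mul h4 _ (by positivity) (by positivity)
        exact mul_le_mul_of_nonneg_left h3 (by positivity)
      have h7 : (δ / (960 * A) * (Real.log q / Real.log (Real.log q))) *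
            (240 / δ' * (2 * Real.log (Real.log q))) = Real.log q / 2 := by
        rw [hδ']
        field_simp
        norm_num
      linarith
    have h3 : z ^ k < q := (Real.log_lt_log_iff (pow_pos (by linarith) k) hq0).1 h2
    exact_mod_cast h1.trans_lt h3
  -- the splitting
  have hsplit : ∀ χ : DirichletCharacter ℂ q, PS a χ (1 + (ε : ℂ) + (t : ℂ) * I) =
      ∑ p ∈ TT Y z, (a p * (ph (-t) p * (p : ℂ) ^ (-(1 + (ε : ℂ))))) * χ p +
        PS (cut a z) χ (1 + (ε : ℂ) + (t : ℂ) * I) := by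
    intro χ
    rw [← PG_gch, PG_split ha haY hz0 (pm_gch χ t) hre, PG_gch]
    congr 1
    apply sum_congr rfl
    intro p _
    unfold gch
    ring
  set b : ℕ → ℂ := fun p => a p * (ph (-t) p * (p : ℂ) ^ (-(1 + (ε : ℂ)))) with hb
  set B₁ := B.filter fun χ => 1 ≤ ‖∑ p ∈ TT Y z, b p * χ p‖ with hB₁
  set B₂ := B.filter fun χ => ¬ 1 ≤ ‖∑ p ∈ TT Y z, b p * χ p‖ with hB₂
  have hcard : (B.card : ℝ) = B₁.card + B₂.card := by
    rw [← Nat.cast_add, card_filter_add_card_filter_not]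
  have hTT : ∀ p ∈ TT Y z, p.Prime ∧ p ≤ ⌊z⌋₊ := by
    intro p hp
    unfold TT at hp
    rw [mem_filter, mem_Ioc] at hp
    exact ⟨hp.2, hp.1.2⟩
  -- the first part
  have h1 : (B₁.card : ℝ) ≤ q.totient * Real.exp (1 - Y / 3) := by
    have h2 : (B₁.card : ℝ) ≤ ∑ χ : DirichletCharacter ℂ q, (‖∑ p ∈ TT Y z, b p * χ p‖ ^ k) ^ 2 := by
      have h3 : (B₁.card : ℝ) = ∑ χ ∈ B₁, (1 : ℝ) := by rw [sum_const, nsmul_eq_mul, mul_one]
      rw [h3]
      refine (sum_le_sum fun χ hχ => ?_).trans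
        (sum_le_sum_of_subset_of_nonneg (subset_univ _) fun _ _ _ => by positivity)
      exact one_le_pow₀ (one_le_pow₀ (mem_filter.1 hχ).2)
    have h3 := moment_chi (q := q) (fun p hp => (hTT p hp).1) (fun p hp => (hTT p hp).2) hzb1 hzk b
    have h4 : ∑ p ∈ TT Y z, ‖b p‖ ^ 2 ≤ 1 / Y := by
      have h5 : ∀ p ∈ TT Y z, ‖b p‖ ^ 2 ≤ 1 / (p : ℝ) ^ 2 := by
        intro p hp
        have hpp := (hTT p hp).1
        have hp0 : (0 : ℝ) < p := by exact_mod_cast hpp.pos
        simp only [hb]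
        rw [norm_mul, norm_mul, norm_ph _ hpp.pos, one_mul, norm_natCast_cpow_of_pos hpp.pos,
          mul_pow]
        have h6 : ‖a p‖ ^ 2 ≤ 1 := pow_le_one₀ (norm_nonneg _) (ha p hpp)
        have h7 : ((p : ℝ) ^ (-(1 + (ε : ℂ))).re) ^ 2 ≤ 1 / (p : ℝ) ^ 2 := by
          rw [one_div, ← inv_pow]
          apply pow_le_pow_left₀ (by positivity)
          rw [← Real.rpow_neg_one]
          apply Real.rpow_le_rpow_of_exponent_le (by exact_mod_cast hpp.one_le)
          simp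
          exact hεpos.le
        calc _ ≤ 1 * (1 / (p : ℝ) ^ 2) := mul_le_mul h6 h7 (by positivity) (by norm_num)
          _ = _ := one_mul _
      refine (sum_le_sum h5).trans ?_
      refine le_trans ?_ (sum_sq_le (by omega : 1 ≤ Y) ⌊z⌋₊)
      apply sum_le_sum_of_subset_of_nonneg
      · exact filter_subset _ _
      · intro _ _ _
        positivity
    have hY0 : (0 : ℝ) < Y := by exact_mod_cast (by omega : 0 < Y)
    have h5 : (k.factorial : ℝ) * (∑ p ∈ TT Y z, ‖b p‖ ^ 2) ^ k ≤ Real.exp (1 - Y / 3) := by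
      have h6 : (∑ p ∈ TT Y z, ‖b p‖ ^ 2) ^ k ≤ (1 / (Y : ℝ)) ^ k :=
        pow_le_pow_left₀ (sum_nonneg fun _ _ => by positivity) h4 k
      have h7 : (k.factorial : ℝ) * (∑ p ∈ TT Y z, ‖b p‖ ^ 2) ^ k ≤ (k : ℝ) ^ k * (1 / (Y : ℝ)) ^ k :=
        mul_le_mul (fact_le k) h6 (pow_nonneg (sum_nonneg fun _ _ => by positivity) _) (by positivity)
      rw [← mul_pow] at h7
      have h8 : (k : ℝ) * (1 / (Y : ℝ)) ≤ Real.exp (-1) := by
        have h9 : (k : ℝ) * (1 / (Y : ℝ)) ≤ 1 / 3 := by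
          rw [mul_one_div, div_le_iff₀ hY0]
          linarith
        have h10 : (1 : ℝ) / 3 ≤ Real.exp (-1) := by
          rw [Real.exp_neg, one_div]
          apply inv_anti₀ (Real.exp_pos _)
          have := Real.exp_one_lt_d9
          linarith
        linarith
      have h9 : ((k : ℝ) * (1 / (Y : ℝ))) ^ k ≤ (Real.exp (-1)) ^ k :=
        pow_le_pow_left₀ (by positivity) h8 k
      have h10 : (Real.exp (-1)) ^ k ≤ Real.exp (1 - Y / 3) := by
        rw [← Real.exp_nat_mul]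
        apply Real.exp_le_exp.2
        linarith
      exact h7.trans (h9.trans h10)
    exact h2.trans (h3.trans (mul_le_mul_of_nonneg_left h5 (Nat.cast_nonneg _)))
  -- the second part
  have h2 : (B₂.card : ℝ) ≤ (q : ℝ) ^ δ := by
    set e := B₂.equivFin with he
    have hmem : ∀ j : Fin B₂.card, ((e.symm j : B₂) : DirichletCharacter ℂ q) ∈ B₂ := fun j =>
      (e.symm j).2
    have hsp : Spaced (fun _ : Fin B₂.card => q) (fun j => ((e.symm j : B₂) : DirichletCharacter ℂ q))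
        (fun _ => t) := by
      refine ⟨fun _ => by omega, fun j k hjk hag => ?_⟩
      exfalso
      apply hjk
      apply e.symm.injective
      apply Subtype.ext
      apply MulChar.ext
      intro u
      obtain ⟨n, hn⟩ : ∃ n : ℕ, (n : ZMod q) = (u : ZMod q) :=
        ⟨(u : ZMod q).val, ZMod.natCast_zmod_val _⟩
      have hc : n.Coprime q := by
        rw [← ZMod.isUnit_iff_coprime, hn]
        exact u.isUnit
      have := hag n (Nat.Coprime.mul_right hc hc)
      rw [← hn]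
      exact this
    have h3 := hshort B₂.card (fun _ => q) (fun j => ((e.symm j : B₂) : DirichletCharacter ℂ q))
      (fun _ => t) hsp
      (fun _ => by
        rw [hℓ, hexp]
        calc (q : ℝ) = (q : ℝ) ^ (1 : ℝ) := (Real.rpow_one _).symm
          _ ≤ _ := Real.rpow_le_rpow_of_exponent_le hq1 hA)
      (fun _ => by rw [hℓ, hexp]; exact ht) (fun _ => ε)
      (fun _ => by
        have h4 : δ' * ℓ / 8 = δ / 8 * Real.log q := by
          rw [hδ', hℓ]
          field_simp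
        rw [h4, hexp]
        exact hε0) (fun _ => hε1) (cut a z) (norm_cut ha z)
      (fun p _ hpz => by
        unfold cut
        rw [if_pos hpz])
      (fun j => by
        have h4 := mem_filter.1 (hmem j)
        have h5 := hB _ h4.1
        rw [hsplit] at h5
        have h6 := norm_add_le (∑ p ∈ TT Y z, b p * ((e.symm j : B₂) : DirichletCharacter ℂ q) p)
          (PS (cut a z) ((e.symm j : B₂) : DirichletCharacter ℂ q) (1 + (ε : ℂ) + (t : ℂ) * I))
        have h7 : 1 / (4 * ℓ) ≤ 1 := by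
          rw [div_le_one (by positivity)]
          linarith
        have h8 := h4.2
        rw [not_le] at h8
        linarith)
    have h4 : δ' * ℓ = δ * Real.log q := by
      rw [hδ', hℓ]
      field_simp
    rw [h4, hexp] at h3
    exact h3
  rw [hcard]
  linarith

/-- the absolute constant -/
lemma exists_CD : ∃ C : ℝ, 3 ≤ C ∧ ∀ y : ℝ, 3 ≤ y →
    ∑ p ∈ (range (⌊y⌋₊ + 1)).filter Nat.Prime, 1 / (p : ℝ) + c₀ + c₁ + 2 ≤
      Real.log (Real.log y) + C := by
  obtain ⟨C, hC0, hC⟩ := sum_inv_le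
  refine ⟨max 3 (C + c₀ + c₁ + 2), le_max_left _ _, fun y hy => ?_⟩
  have := hC y hy
  have := le_max_right (3 : ℝ) (C + c₀ + c₁ + 2)
  linarith

lemma LG_gch {K : Type} [Field K] [NumberField K] (P : HeightOneSpectrum (𝓞 K) → ℂ[X]) {q : ℕ}
    (χ : DirichletCharacter ℂ q) (t : ℝ) (s : ℂ) : LG P (gch χ t) s =
      ∏' v : HeightOneSpectrum (𝓞 K),
        ((P v).eval (χ (nm v : ℕ) * ((nm v : ℕ) : ℂ) ^ (-(s + (t : ℂ) * I))))⁻¹ := by
  unfold LG
  apply tprod_congr
  intro v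
  congr 2
  have hne : ((nm v : ℕ) : ℂ) ≠ 0 := by
    have h0 : (0 : ℝ) < (nm v : ℝ) := by
      have := nm_ge_two v
      linarith
    have : 0 < nm v := by exact_mod_cast h0
    exact_mod_cast this.ne'
  unfold gch LS.ph
  rw [mul_assoc, ← Complex.cpow_add _ _ hne]
  congr 2
  push_cast
  ring

lemma exp_four_thirds : Real.exp (4 / 3) ≤ 4 := by
  have h1 := Real.exp_one_lt_d9
  have h0 := Real.exp_pos 1
  by_contra hcon
  rw [not_le] at hcon
  have h2 : (4 : ℝ) ^ 3 < Real.exp (4 / 3) ^ 3 := pow_lt_pow_left₀ hcon (by norm_num) (by norm_num)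
  rw [← Real.exp_nat_mul] at h2
  have h3 : Real.exp ((3 : ℕ) * (4 / 3 : ℝ)) = Real.exp 1 ^ 4 := by
    rw [← Real.exp_nat_mul]
    norm_num
  rw [h3] at h2
  have h4 : Real.exp 1 ^ 4 ≤ (2.7182818286 : ℝ) ^ 4 := pow_le_pow_left₀ h0.le h1.le 4
  norm_num at h4 h2
  linarith

/-- **Large deviations.** -/
theorem dev {C : ℝ} (hC : ∀ y : ℝ, 3 ≤ y →
      ∑ p ∈ (range (⌊y⌋₊ + 1)).filter Nat.Prime, 1 / (p : ℝ) + c₀ + c₁ + 2 ≤
        Real.log (Real.log y) + C) {A κ : ℝ} (hA : 1 ≤ A) (hκ : 0 < κ)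
      (hκ8 : κ < 1 / 8) :
      ∃ (c : ℝ) (Q₀ : ℕ), 0 < c ∧ ∀ (K : Type) [Field K] [NumberField K] (N : ℕ) (w : ℝ)
        (P : HeightOneSpectrum (𝓞 K) → ℂ[X]), HW P N w → ∀ (q : ℕ) [NeZero q], Q₀ ≤ q →
        ∀ t : ℝ, |t| ≤ (q : ℝ) ^ A → ∀ ε : ℝ, Real.exp (-(q : ℝ) ^ κ) ≤ ε → ε ≤ 1 / 2 →
        ∀ y : ℝ, 3 ≤ y → y ≤ c * (Real.log q / Real.log (Real.log q)) →
        ∀ B : Finset (DirichletCharacter ℂ q), (∀ χ ∈ B,
          (Module.finrank ℚ K : ℝ) * N * (Real.log (Real.log y) + C) <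
            |Real.log ‖LG P (gch χ t) (1 + (w : ℂ) / 2 + (ε : ℂ))‖|) →
        (B.card : ℝ) ≤ 5 * (q.totient * Real.exp (-(y / 4))) := by
  have hA0 : 0 < A := by linarith
  set δ : ℝ := 8 * κ with hδ
  have hδ0 : 0 < δ := by positivity
  have hδ1 : δ < 1 := by linarith
  obtain ⟨Q₁, hQ₁⟩ := chi_dev hδ0 hδ1.le hA
  set c : ℝ := min (δ / (320 * A)) (2 * (1 - δ)) with hc
  have hc0 : 0 < c := lt_min (by positivity) (by linarith)
  have hlogn : Tendsto (fun q : ℕ => Real.log (q : ℝ)) atTop atTop :=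
    Real.tendsto_log_atTop.comp tendsto_natCast_atTop_atTop
  have hll : Tendsto (fun q : ℕ => Real.log (Real.log (q : ℝ))) atTop atTop :=
    Real.tendsto_log_atTop.comp hlogn
  have hδc : δ + c / 4 < 1 := by
    have := min_le_right (δ / (320 * A)) (2 * (1 - δ))
    rw [← hc] at this
    linarith
  obtain ⟨Q₂, hQ₂⟩ := eventually_atTop.1 ((ev_totient hδc one_pos).and
    ((hll.eventually (eventually_ge_atTop 1)).and ((hlogn.eventually (eventually_ge_atTop 1)).and
      (eventually_ge_atTop 1))))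
  refine ⟨c, max Q₁ Q₂, hc0, fun K _ _ N w P hP q _ hq t ht ε hε0 hε1 y hy3 hyc B hB => ?_⟩
  obtain ⟨htot, hllq, hlq, hqpos⟩ := hQ₂ q ((le_max_right _ _).trans hq)
  have hq0 : (0 : ℝ) < q := by exact_mod_cast hqpos
  have hε : 0 < ε := lt_of_lt_of_le (Real.exp_pos _) hε0
  set M : ℝ := (Module.finrank ℚ K : ℝ) * N with hM
  have hM0 : 0 ≤ M := by positivity
  set Y : ℕ := ⌊y⌋₊ with hY
  have hY3 : 3 ≤ Y := Nat.le_floor (by exact_mod_cast hy3)
  have hYy : (Y : ℝ) ≤ y := Nat.floor_le (by linarith)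
  have hYy' : y - 1 ≤ Y := by
    have := Nat.lt_floor_add_one y
    linarith
  have hY3' : (3 : ℝ) ≤ Y := by exact_mod_cast hY3
  have hlogY : 0 < Real.log (Y : ℝ) := Real.log_pos (by linarith)
  have hloglog : Real.log (Real.log (Y : ℝ)) ≤ Real.log (Real.log y) :=
    Real.log_le_log hlogY (Real.log_le_log (by linarith) hYy)
  obtain ⟨a, h1, h2, h3⟩ := hasProd_short w P hP.c0 hP.deg hP.root
    (y := (Y : ℝ)) (by linarith)
  have hCY := hC (Y : ℝ) hY3'
  have hc₁ := c₁_nonneg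
  have hY4 : (Y : ℝ) ^ (-(1 / 4 : ℝ)) ≤ 1 :=
    Real.rpow_le_one_of_one_le_of_nonpos (by linarith) (by norm_num)
  -- a bound for the logarithm
  have hlog : ∀ χ : DirichletCharacter ℂ q,
      ‖PS a χ (1 + (ε : ℂ) + (t : ℂ) * I)‖ ≤ 2 * M →
      |Real.log ‖LG P (gch χ t) (1 + (w : ℂ) / 2 + (ε : ℂ))‖| ≤
        M * (Real.log (Real.log y) + C) := by
    intro χ hχ
    have hre : 1 + w / 2 < (1 + (w : ℂ) / 2 + (ε : ℂ) + (t : ℂ) * I).re := by
      have := re_s w ε
      simp only [add_re] at this ⊢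
      simp
      linarith
    obtain ⟨Λ, Λ', e1, e2, e3, e4⟩ := h3 q χ _ hre
    have e5 : (1 + (w : ℂ) / 2 + (ε : ℂ) + (t : ℂ) * I) - ((w / 2 : ℝ) : ℂ) =
        1 + (ε : ℂ) + (t : ℂ) * I := by
      push_cast
      ring
    rw [e5] at e3
    rw [LG_gch, e1.tprod_eq, Complex.norm_exp, Real.log_exp]
    have h5 : ‖Λ‖ ≤ M * c₁ + 2 * M := by
      have h6 := norm_add_le (Λ - PS a χ (1 + (ε : ℂ) + (t : ℂ) * I))
        (PS a χ (1 + (ε : ℂ) + (t : ℂ) * I))
      rw [sub_add_cancel] at h6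
      have h7 : M * c₁ * (Y : ℝ) ^ (-(1 / 4 : ℝ)) ≤ M * c₁ :=
        mul_le_of_le_one_right (by positivity) hY4
      linarith
    have h6 : |(Λ + Λ').re| ≤ ‖Λ‖ + ‖Λ'‖ := (Complex.abs_re_le_norm _).trans (norm_add_le _ _)
    rw [Nat.floor_natCast] at e4 hCY
    have h7 : M * (∑ p ∈ (range (Y + 1)).filter Nat.Prime, 1 / (p : ℝ) + c₀ + c₁ + 2) ≤
        M * (Real.log (Real.log (Y : ℝ)) + C) := mul_le_mul_of_nonneg_left hCY hM0
    have h8 : M * (Real.log (Real.log (Y : ℝ)) + C) ≤ M * (Real.log (Real.log y) + C) :=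
      mul_le_mul_of_nonneg_left (by linarith) hM0
    nlinarith
  rcases eq_or_lt_of_le hM0 with hM00 | hMpos
  · -- trivial coefficients
    have hBe : B = ∅ := by
      rw [Finset.eq_empty_iff_forall_notMem]
      intro χ hχ
      have h4 := hB χ hχ
      have h5 : PS a χ (1 + (ε : ℂ) + (t : ℂ) * I) = 0 := by
        unfold LS.PS
        have : ∀ p : Nat.Primes, a p * (χ (p : ℕ) * ((p : ℕ) : ℂ) ^ (-(1 + (ε : ℂ) + (t : ℂ) * I))) = 0 := by
          intro p
          have h6 := h1 p p.2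
          rw [← hM, ← hM00] at h6
          rw [norm_le_zero_iff.1 h6, zero_mul]
        rw [tsum_congr this, tsum_zero]
      have h6 := hlog χ (by rw [h5, norm_zero]; positivity)
      linarith
    rw [hBe, card_empty, Nat.cast_zero]
    positivity
  · have h4 := hQ₁ q ((le_max_left _ _).trans hq) t ht ε (by
      rw [hδ, show 8 * κ / 8 = κ by ring]; exact hε0) hε1 Y hY3 (by
        refine hYy.trans (hyc.trans ?_)
        apply mul_le_mul_of_nonneg_right (min_le_left _ _)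
        positivity) (fun p => a p / (M : ℂ)) (fun p hp => by
          rw [norm_div, Complex.norm_real, Real.norm_of_nonneg hM0, div_le_one hMpos]
          exact h1 p hp) (fun p hp hpY => by
          rw [h2 p hp (by exact_mod_cast hpY), zero_div]) B (fun χ hχ => by
          by_contra hcon
          rw [not_le] at hcon
          have h5 : PS (fun p => a p / (M : ℂ)) χ (1 + (ε : ℂ) + (t : ℂ) * I) =
              PS a χ (1 + (ε : ℂ) + (t : ℂ) * I) / (M : ℂ) := by
            unfold LS.PS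
            rw [← tsum_div_const]
            apply tsum_congr
            intro p
            ring
          rw [h5, norm_div, Complex.norm_real, Real.norm_of_nonneg hM0, div_lt_iff₀ hMpos] at hcon
          have h6 := hlog χ hcon.le
          have h7 := hB χ hχ
          linarith)
    have h5 : (q : ℝ) ^ δ ≤ q.totient * Real.exp (-(y / 4)) := by
      have h6 : (q : ℝ) ^ (-(c / 4)) ≤ Real.exp (-(y / 4)) := by
        rw [Real.rpow_def_of_pos hq0]
        apply Real.exp_le_exp.2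
        have h7 : Real.log q / Real.log (Real.log q) ≤ Real.log q := by
          rw [div_le_iff₀ (by linarith)]
          nlinarith
        have h8 : c * (Real.log q / Real.log (Real.log q)) ≤ c * Real.log q :=
          mul_le_mul_of_nonneg_left h7 hc0.le
        linarith
      calc (q : ℝ) ^ δ = (q : ℝ) ^ (δ + c / 4) * (q : ℝ) ^ (-(c / 4)) := by
            rw [← Real.rpow_add hq0]
            congr 1
            ring
        _ ≤ (1 * q.totient) * Real.exp (-(y / 4)) :=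
            mul_le_mul htot h6 (Real.rpow_nonneg hq0.le _) (by positivity)
        _ = _ := by ring
    have h6 : Real.exp (1 - (Y : ℝ) / 3) ≤ 4 * Real.exp (-(y / 4)) := by
      have h7 : (1 : ℝ) - Y / 3 ≤ 4 / 3 + -(y / 4) := by linarith
      calc _ ≤ Real.exp (4 / 3 + -(y / 4)) := Real.exp_le_exp.2 h7
        _ = Real.exp (4 / 3) * Real.exp (-(y / 4)) := Real.exp_add _ _
        _ ≤ _ := mul_le_mul_of_nonneg_right exp_four_thirds (Real.exp_pos _).le
    have h7 : (q.totient : ℝ) * Real.exp (1 - (Y : ℝ) / 3) ≤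
        q.totient * (4 * Real.exp (-(y / 4))) := mul_le_mul_of_nonneg_left h6 (Nat.cast_nonneg _)
    linarith

/-- the bounds for the moments -/
noncomputable def DD (C u : ℝ) : ℝ :=
  Real.exp (u * (Real.log (Real.log 3) + C)) +
    5 * ∑' j : ℕ, Real.exp (-((j : ℝ) / 4)) * Real.exp (u * (Real.log (Real.log (j + 1)) + C))

lemma summable_DD (C : ℝ) {u : ℝ} (hu : 0 ≤ u) : Summable fun j : ℕ =>
    Real.exp (-((j : ℝ) / 4)) * Real.exp (u * (Real.log (Real.log (j + 1)) + C)) := by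
  set m : ℕ := ⌈u⌉₊ with hm
  have hum : u ≤ m := Nat.le_ceil u
  have h1 : Summable fun j : ℕ => ((j : ℝ) ^ m * (Real.exp (-(1 / 4))) ^ j) :=
    summable_pow_mul_geometric_of_norm_lt_one m (by
      rw [Real.norm_of_nonneg (Real.exp_pos _).le, Real.exp_lt_one_iff]
      norm_num)
  have h2 := (summable_nat_add_iff 1).2 h1
  refine Summable.of_nonneg_of_le (fun j => by positivity) (fun j => ?_)
    (h2.mul_left (Real.exp (u * C) * Real.exp (1 / 4) + Real.exp (u * C)))
  rcases Nat.eq_zero_or_pos j with rfl | hj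
  · simp only [Nat.cast_zero, zero_div, neg_zero, Real.exp_zero, one_mul, zero_add, Real.log_one,
      Real.log_zero, Nat.cast_one, one_pow, pow_one]
    have h3 : Real.exp (1 / 4) * Real.exp (-(1 / 4)) = 1 := by
      rw [← Real.exp_add]
      norm_num
    have h4 : 0 < Real.exp (u * C) * Real.exp (-(1 / 4)) := by positivity
    have h5 : (Real.exp (u * C) * Real.exp (1 / 4) + Real.exp (u * C)) * Real.exp (-(1 / 4)) =
        Real.exp (u * C) * (Real.exp (1 / 4) * Real.exp (-(1 / 4))) +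
          Real.exp (u * C) * Real.exp (-(1 / 4)) := by ring
    rw [h5, h3]
    linarith
  · have hj1 : (1 : ℝ) ≤ j := by exact_mod_cast hj
    have hl : 0 < Real.log ((j : ℝ) + 1) := Real.log_pos (by linarith)
    have h3 : Real.log (Real.log ((j : ℝ) + 1)) ≤ Real.log ((j : ℝ) + 1) := by
      apply Real.log_le_log hl
      have := Real.log_le_sub_one_of_pos (by linarith : (0 : ℝ) < (j : ℝ) + 1)
      linarith
    have h4 : Real.exp (u * (Real.log (Real.log ((j : ℝ) + 1)) + C)) ≤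
        Real.exp (u * C) * ((j : ℝ) + 1) ^ m := by
      have h5 : Real.exp (u * C) * ((j : ℝ) + 1) ^ m =
          Real.exp (u * C + m * Real.log ((j : ℝ) + 1)) := by
        rw [Real.exp_add, mul_comm (m : ℝ), ← Real.rpow_def_of_pos (by linarith), Real.rpow_natCast]
      rw [h5]
      apply Real.exp_le_exp.2
      have h6 : u * Real.log (Real.log ((j : ℝ) + 1)) ≤ u * Real.log ((j : ℝ) + 1) :=
        mul_le_mul_of_nonneg_left h3 hu
      have h7 : u * Real.log ((j : ℝ) + 1) ≤ m * Real.log ((j : ℝ) + 1) :=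
        mul_le_mul_of_nonneg_right hum (Real.log_nonneg (by linarith))
      linarith
    have h5 : Real.exp (-((j : ℝ) / 4)) = Real.exp (1 / 4) * Real.exp (-(1 / 4)) ^ (j + 1) := by
      rw [← Real.exp_nat_mul, ← Real.exp_add]
      congr 1
      push_cast
      ring
    rw [h5]
    push_cast
    have h6 : 0 < Real.exp (-(1 / 4)) ^ (j + 1) := by positivity
    have h7 : 0 ≤ ((j : ℝ) + 1) ^ m := by positivity
    have h8 : 0 < Real.exp (u * C) := Real.exp_pos _
    calc Real.exp (1 / 4) * Real.exp (-(1 / 4)) ^ (j + 1) *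
          Real.exp (u * (Real.log (Real.log ((j : ℝ) + 1)) + C)) ≤
          Real.exp (1 / 4) * Real.exp (-(1 / 4)) ^ (j + 1) * (Real.exp (u * C) * ((j : ℝ) + 1) ^ m) :=
          mul_le_mul_of_nonneg_left h4 (by positivity)
      _ ≤ (Real.exp (u * C) * Real.exp (1 / 4) + Real.exp (u * C)) *
          (((j : ℝ) + 1) ^ m * Real.exp (-(1 / 4)) ^ (j + 1)) := by
          have : 0 ≤ Real.exp (u * C) * (((j : ℝ) + 1) ^ m * Real.exp (-(1 / 4)) ^ (j + 1)) := by
            positivity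
          nlinarith

/-- from large deviations to moments -/
lemma mom_of {α : Type*} [Fintype α] [DecidableEq α] {T M C : ℝ} (hM : 0 ≤ M) (F : α → ℝ) {J : ℕ}
    (hJ : 3 ≤ J) (S : ℕ → Finset α)
    (hS : ∀ j x, x ∉ S j → F x ≤ M * (Real.log (Real.log j) + C))
    (hc : ∀ j, 3 ≤ j → j ≤ J → ((S j).card : ℝ) ≤ 5 * (T * Real.exp (-((j : ℝ) / 4))))
    (hT : (Fintype.card α : ℝ) ≤ T) {r : ℝ} (hr : 0 ≤ r) :
    ∑ x ∈ (S J)ᶜ, Real.exp (r * F x) ≤ DD C (r * M) * T := by
  have hT0 : 0 ≤ T := (Nat.cast_nonneg _).trans hT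
  set u : ℝ := r * M with hu
  have hu0 : 0 ≤ u := mul_nonneg hr hM
  set G : ℕ → ℝ := fun j => Real.exp (u * (Real.log (Real.log j) + C)) with hG
  have hG0 : ∀ j, 0 < G j := fun j => Real.exp_pos _
  have key : ∀ n : ℕ, ∀ x ∉ S (3 + n), Real.exp (r * F x) ≤
      G 3 + ∑ j ∈ Ico 3 (3 + n), if x ∈ S j then G (j + 1) else 0 := by
    intro n
    induction n with
    | zero =>
      intro x hx
      have h1 := hS 3 x hx
      simp only [add_zero, Ico_self, sum_empty, hG]
      apply Real.exp_le_exp.2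
      rw [hu, mul_assoc]
      exact mul_le_mul_of_nonneg_left h1 hr
    | succ n ih =>
      intro x hx
      rw [← add_assoc, sum_Ico_succ_top (by omega)]
      by_cases h : x ∈ S (3 + n)
      · rw [if_pos h]
        have h1 := hS (3 + (n + 1)) x hx
        have h2 : Real.exp (r * F x) ≤ G (3 + n + 1) := by
          simp only [hG]
          apply Real.exp_le_exp.2
          rw [hu, mul_assoc]
          exact mul_le_mul_of_nonneg_left h1 hr
        have h3 : 0 ≤ ∑ j ∈ Ico 3 (3 + n), if x ∈ S j then G (j + 1) else 0 :=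
          sum_nonneg fun j _ => by split_ifs <;> [exact (hG0 _).le; exact le_rfl]
        have h4 := hG0 3
        linarith
      · rw [if_neg h, add_zero]
        exact ih x h
  obtain ⟨n, rfl⟩ : ∃ n, J = 3 + n := ⟨J - 3, by omega⟩
  have h1 : ∑ x ∈ (S (3 + n))ᶜ, Real.exp (r * F x) ≤
      ∑ x : α, (G 3 + ∑ j ∈ Ico 3 (3 + n), if x ∈ S j then G (j + 1) else 0) := by
    refine (sum_le_sum fun x hx => key n x (mem_compl.1 hx)).trans
      (sum_le_sum_of_subset_of_nonneg (subset_univ _) fun x _ _ => ?_)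
    have h3 : 0 ≤ ∑ j ∈ Ico 3 (3 + n), if x ∈ S j then G (j + 1) else 0 :=
      sum_nonneg fun j _ => by split_ifs <;> [exact (hG0 _).le; exact le_rfl]
    have h4 := hG0 3
    linarith
  have h2 : ∑ x : α, (G 3 + ∑ j ∈ Ico 3 (3 + n), if x ∈ S j then G (j + 1) else 0) =
      Fintype.card α * G 3 + ∑ j ∈ Ico 3 (3 + n), (S j).card * G (j + 1) := by
    rw [sum_add_distrib, sum_const, card_univ, nsmul_eq_mul, sum_comm]
    congr 1
    apply sum_congr rfl
    intro j _
    have h9 : (univ.filter fun x => x ∈ S j) = S j := by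
      ext x
      simp
    rw [← sum_filter, sum_const, nsmul_eq_mul, h9]
  have h3 : ∑ j ∈ Ico 3 (3 + n), ((S j).card : ℝ) * G (j + 1) ≤
      ∑ j ∈ Ico 3 (3 + n), 5 * T * (Real.exp (-((j : ℝ) / 4)) *
        Real.exp (u * (Real.log (Real.log (j + 1)) + C))) := by
    apply sum_le_sum
    intro j hj
    rw [mem_Ico] at hj
    have h4 := hc j hj.1 (by omega)
    have h5 : G (j + 1) = Real.exp (u * (Real.log (Real.log (j + 1)) + C)) := by
      simp only [hG]
      push_cast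
      rfl
    rw [← h5]
    calc _ ≤ 5 * (T * Real.exp (-((j : ℝ) / 4))) * G (j + 1) :=
          mul_le_mul_of_nonneg_right h4 (hG0 _).le
      _ = _ := by ring
  have h4 : ∑ j ∈ Ico 3 (3 + n), (Real.exp (-((j : ℝ) / 4)) *
        Real.exp (u * (Real.log (Real.log (j + 1)) + C))) ≤ ∑' j : ℕ, Real.exp (-((j : ℝ) / 4)) *
          Real.exp (u * (Real.log (Real.log (j + 1)) + C)) :=
    (summable_DD C hu0).sum_le_tsum _ fun j _ => by positivity
  have h5 : (Fintype.card α : ℝ) * G 3 ≤ T * G 3 := mul_le_mul_of_nonneg_right hT (hG0 3).le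
  have h6 : G 3 = Real.exp (u * (Real.log (Real.log 3) + C)) := by
    simp only [hG]
    norm_num
  rw [h2] at h1
  rw [← mul_sum] at h3
  have h7 : 5 * T * ∑ j ∈ Ico 3 (3 + n), (Real.exp (-((j : ℝ) / 4)) *
        Real.exp (u * (Real.log (Real.log (j + 1)) + C))) ≤ 5 * T *
        ∑' j : ℕ, Real.exp (-((j : ℝ) / 4)) *
          Real.exp (u * (Real.log (Real.log (j + 1)) + C)) :=
    mul_le_mul_of_nonneg_left h4 (by positivity)
  unfold DD
  rw [← h6]
  linarith

lemma tendsto_LL : Tendsto (fun q : ℕ => Real.log (q : ℝ) / Real.log (Real.log (q : ℝ))) atTop atTop := by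
  have h1 : Tendsto (fun x : ℝ => x / Real.log x) atTop atTop := by
    have h2 : Tendsto (fun x : ℝ => Real.sqrt x / 2) atTop atTop :=
      Real.tendsto_sqrt_atTop.atTop_div_const (by norm_num)
    refine tendsto_atTop_mono' _ ?_ h2
    filter_upwards [eventually_ge_atTop 3] with x hx
    have h3 : 0 < Real.sqrt x := Real.sqrt_pos.2 (by linarith)
    have h4 : 0 < Real.log x := Real.log_pos (by linarith)
    have h5 : Real.log x ≤ 2 * Real.sqrt x := by
      have h6 := Real.log_le_sub_one_of_pos h3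
      rw [Real.log_sqrt (by linarith)] at h6
      linarith
    rw [div_le_div_iff₀ (by norm_num) h4]
    have h6 : Real.sqrt x * Real.log x ≤ Real.sqrt x * (2 * Real.sqrt x) :=
      mul_le_mul_of_nonneg_left h5 h3.le
    have h7 := Real.mul_self_sqrt (show 0 ≤ x by linarith)
    nlinarith
  exact h1.comp (Real.tendsto_log_atTop.comp tendsto_natCast_atTop_atTop)

/-- **Large deviations and moments.** -/
theorem dev_all {C : ℝ} (hC : ∀ y : ℝ, 3 ≤ y →
      ∑ p ∈ (range (⌊y⌋₊ + 1)).filter Nat.Prime, 1 / (p : ℝ) + c₀ + c₁ + 2 ≤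
        Real.log (Real.log y) + C) {A κ : ℝ} (hA : 1 ≤ A) (hκ : 0 < κ)
      (hκ8 : κ < 1 / 8) :
      ∃ (c : ℝ) (Q₀ : ℕ), 0 < c ∧ ∀ (K : Type) [Field K] [NumberField K] (N : ℕ) (w : ℝ)
        (P : HeightOneSpectrum (𝓞 K) → ℂ[X]), HW P N w → ∀ (q : ℕ) [NeZero q], Q₀ ≤ q →
        ∀ t : ℝ, |t| ≤ (q : ℝ) ^ A → ∀ ε : ℝ, Real.exp (-(q : ℝ) ^ κ) ≤ ε → ε ≤ 1 / 2 →
        (∀ y : ℝ, 3 ≤ y → y ≤ c * (Real.log q / Real.log (Real.log q)) →
        ∀ B : Finset (DirichletCharacter ℂ q), (∀ χ ∈ B,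
          (Module.finrank ℚ K : ℝ) * N * (Real.log (Real.log y) + C) <
            |Real.log ‖LG P (gch χ t) (1 + (w : ℂ) / 2 + (ε : ℂ))‖|) →
        (B.card : ℝ) ≤ 5 * (q.totient * Real.exp (-(y / 4)))) ∧
        ∃ E : Finset (DirichletCharacter ℂ q),
          (E.card : ℝ) ≤ q.totient * Real.exp (-(c * (Real.log q / Real.log (Real.log q)))) ∧
          ∀ r : ℝ, 0 ≤ r → ∑ χ : DirichletCharacter ℂ q with χ ∉ E,
            Real.exp (r * |Real.log ‖LG P (gch χ t) (1 + (w : ℂ) / 2 + (ε : ℂ))‖|) ≤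
            DD C (r * ((Module.finrank ℚ K : ℝ) * N)) * q.totient := by
  classical
  obtain ⟨c, Q₁, hc, hQ₁⟩ := dev hC hA hκ hκ8
  obtain ⟨Q₂, hQ₂⟩ := eventually_atTop.1 ((tendsto_LL.eventually (eventually_ge_atTop (3 / c))).and
    ((tendsto_LL.eventually (eventually_ge_atTop (20 / c * (Real.log 5 + 1 / 4)))).and
      (tendsto_LL.eventually (eventually_ge_atTop 0))))
  refine ⟨c / 5, max Q₁ Q₂, by positivity, fun K _ _ N w P hP q _ hq t ht ε hε0 hε1 => ?_⟩
  obtain ⟨hL3, hL20, hL0⟩ := hQ₂ q ((le_max_right _ _).trans hq)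
  have hq1 := (le_max_left _ _).trans hq
  set L : ℝ := Real.log q / Real.log (Real.log q) with hL
  have key := hQ₁ K N w P hP q hq1 t ht ε hε0 hε1
  refine ⟨fun y hy3 hyc B hB => key y hy3 (hyc.trans ?_) B hB, ?_⟩
  · apply mul_le_mul_of_nonneg_right _ hL0
    linarith
  set F : DirichletCharacter ℂ q → ℝ := fun χ =>
    |Real.log ‖LG P (gch χ t) (1 + (w : ℂ) / 2 + (ε : ℂ))‖| with hF
  set M : ℝ := (Module.finrank ℚ K : ℝ) * N with hM
  have hM0 : 0 ≤ M := by positivity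
  set S : ℕ → Finset (DirichletCharacter ℂ q) := fun j =>
    univ.filter fun χ => M * (Real.log (Real.log (j : ℝ)) + C) < F χ with hS
  set J : ℕ := ⌊c * L⌋₊ with hJ
  have hcL : 3 ≤ c * L := by
    rw [div_le_iff₀ hc] at hL3
    linarith
  have hJ3 : 3 ≤ J := Nat.le_floor (by exact_mod_cast hcL)
  have hJc : (J : ℝ) ≤ c * L := Nat.floor_le (by linarith)
  have hJc' : c * L - 1 ≤ J := by
    have := Nat.lt_floor_add_one (c * L)
    linarith
  have htot0 : (0 : ℝ) ≤ q.totient := Nat.cast_nonneg _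
  have hcard : ∀ j, 3 ≤ j → j ≤ J → ((S j).card : ℝ) ≤ 5 * (q.totient * Real.exp (-((j : ℝ) / 4))) := by
    intro j hj hjJ
    have h1 : (j : ℝ) ≤ J := by exact_mod_cast hjJ
    exact key j (by exact_mod_cast hj) (h1.trans hJc) (S j) (fun χ hχ => (mem_filter.1 hχ).2)
  refine ⟨S J, ?_, fun r hr => ?_⟩
  · refine (hcard J hJ3 le_rfl).trans ?_
    have h1 : 5 * Real.exp (-((J : ℝ) / 4)) ≤ Real.exp (-(c / 5 * L)) := by
      have h2 : (5 : ℝ) = Real.exp (Real.log 5) := (Real.exp_log (by norm_num)).symm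
      rw [h2, ← Real.exp_add]
      apply Real.exp_le_exp.2
      have h3 : Real.log 5 + 1 / 4 ≤ c * L / 20 := by
        rw [div_mul_eq_mul_div, div_le_iff₀ hc] at hL20
        linarith
      rw [← h2]
      linarith
    calc 5 * (q.totient * Real.exp (-((J : ℝ) / 4))) = q.totient * (5 * Real.exp (-((J : ℝ) / 4))) := by
          ring
      _ ≤ _ := mul_le_mul_of_nonneg_left h1 htot0
  · have h1 := mom_of (T := (q.totient : ℝ)) (C := C) hM0 F hJ3 S (fun j x hx => by
      by_contra hcon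
      rw [not_le] at hcon
      exact hx (mem_filter.2 ⟨mem_univ _, hcon⟩)) hcard (by rw [card_char]) hr
    refine le_trans (le_of_eq ?_) h1
    apply sum_congr _ fun _ _ => rfl
    ext χ
    simp

end Pool.Agent.H439.LL
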