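import Pool.Agent.H439.LL.ChiTail

/-!
# Random multiplicative functions
-/

set_option autoImplicit false

namespace Pool.Agent.H439.LL

open Finset Complex ComplexConjugate Filter Topology MeasureTheory ProbabilityTheory
  Pool.Agent.H439.LS Pool.Agent.H439.SP

variable {Ω : Type} [MeasurableSpace Ω]

/-- The values at the primes are independent and uniformly distributed on the unit circle, and the
function is completely multiplicative. -/
structure Steinhaus (μ : Measure Ω) (X : ℕ → Ω → ℂ) : Prop where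
  map_mul : ∀ m n : ℕ, 0 < m → 0 < n → ∀ ω, X (m * n) ω = X m ω * X n ω
  angles : ∃ θ : Nat.Primes → Ω → ℝ, (∀ p, Measurable (θ p)) ∧
    (∀ p, μ.map (θ p) = volume.restrict (Set.Icc 0 1)) ∧ iIndepFun θ μ ∧
    ∀ (p : Nat.Primes) ω, X p ω = Complex.exp (2 * Real.pi * I * θ p ω)

/-- the character `e(m x)` -/
noncomputable def ex (m : ℤ) (x : ℝ) : ℂ := Complex.exp (2 * Real.pi * I * (m * x))

lemma continuous_ex (m : ℤ) : Continuous (ex m) := by unfold ex; fun_prop

lemma norm_ex (m : ℤ) (x : ℝ) : ‖ex m x‖ = 1 := by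
  unfold ex
  rw [show (2 * Real.pi * I * (m * x) : ℂ) = ((2 * Real.pi * (m * x) : ℝ) : ℂ) * I by
    push_cast; ring, Complex.norm_exp_ofReal_mul_I]

lemma ex_one (x : ℝ) : ex 1 x = Complex.exp (2 * Real.pi * I * x) := by
  unfold ex
  congr 1
  push_cast
  ring

lemma ex_zero (x : ℝ) : ex 0 x = 1 := by
  unfold ex
  simp

lemma ex_neg (m : ℤ) (x : ℝ) : ex (-m) x = conj (ex m x) := by
  unfold ex
  rw [← Complex.exp_conj]
  congr 1
  simp only [map_mul, Complex.conj_I, Complex.conj_ofReal, map_ofNat, map_intCast]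
  push_cast
  ring

lemma ex_add (m n : ℤ) (x : ℝ) : ex (m + n) x = ex m x * ex n x := by
  unfold ex
  rw [← Complex.exp_add]
  congr 1
  push_cast
  ring

lemma integral_ex {μ : Measure Ω} {θ : Ω → ℝ} (hθ : Measurable θ)
    (hμ : μ.map θ = volume.restrict (Set.Icc 0 1)) (m : ℤ) :
    ∫ ω, ex m (θ ω) ∂μ = if m = 0 then 1 else 0 := by
  have h1 : ∫ ω, ex m (θ ω) ∂μ = ∫ x in Set.Icc (0 : ℝ) 1, ex m x := by
    rw [← hμ, integral_map hθ.aemeasurable (continuous_ex m).aestronglyMeasurable]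
  rw [h1, integral_Icc_eq_integral_Ioc, ← intervalIntegral.integral_of_le zero_le_one]
  split_ifs with hm
  · subst hm
    simp_rw [ex_zero]
    simp
  · have hc : (2 * Real.pi * I * m : ℂ) ≠ 0 := by
      have : (m : ℂ) ≠ 0 := by exact_mod_cast hm
      have hpi : (Real.pi : ℂ) ≠ 0 := by exact_mod_cast Real.pi_ne_zero
      simp [this, hpi]
    have h2 : ∀ x : ℝ, ex m x = Complex.exp ((2 * Real.pi * I * m) * x) := by
      intro x
      unfold ex
      congr 1
      ring
    simp_rw [h2]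
    rw [integral_exp_mul_complex hc]
    have h3 : Complex.exp (2 * Real.pi * I * m * ((1 : ℝ) : ℂ)) = 1 := by
      rw [show (2 * Real.pi * I * m * ((1 : ℝ) : ℂ) : ℂ) = m * (2 * Real.pi * I) by
        push_cast; ring]
      exact Complex.exp_int_mul_two_pi_mul_I m
    rw [h3]
    simp

lemma prob_of_map {μ : Measure Ω} {θ : Ω → ℝ} (hθ : Measurable θ)
    (hμ : μ.map θ = volume.restrict (Set.Icc 0 1)) : IsProbabilityMeasure μ := by
  constructor
  have h1 : μ.map θ Set.univ = 1 := by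
    rw [hμ, Measure.restrict_apply_univ, Real.volume_Icc]
    simp
  rwa [Measure.map_apply hθ MeasurableSet.univ, Set.preimage_univ] at h1

/-- **the averages of the characters of a torus** -/
lemma weyl_random {μ : Measure Ω} {θ : Nat.Primes → Ω → ℝ} (hθ : ∀ p, Measurable (θ p))
    (hμ : ∀ p, μ.map (θ p) = volume.restrict (Set.Icc 0 1)) (hind : iIndepFun θ μ)
    {d : Type} [Fintype d] (φ : d → Nat.Primes) (hφ : Function.Injective φ) (m : d → ℤ) :
    ∫ ω, ∏ i, ex (m i) (θ (φ i) ω) ∂μ = if m = 0 then 1 else 0 := by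
  have h1 := (hind.precomp hφ).integral_fun_prod_comp (f := fun i => ex (m i))
    (fun i => (hθ (φ i)).aemeasurable) (fun i => (continuous_ex (m i)).aestronglyMeasurable)
  rw [h1]
  have h2 : ∀ i, ∫ ω, ex (m i) (θ (φ i) ω) ∂μ = if m i = 0 then 1 else 0 := fun i =>
    integral_ex (hθ (φ i)) (hμ (φ i)) (m i)
  rw [Finset.prod_congr rfl fun i _ => h2 i]
  split_ifs with h
  · subst h
    simp
  · obtain ⟨i, hi⟩ := Function.ne_iff.1 h
    apply prod_eq_zero (mem_univ i)
    rw [if_neg (by simpa using hi)]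

section
variable {μ : Measure Ω} {X : ℕ → Ω → ℂ}

lemma Steinhaus.prob (h : Steinhaus μ X) : IsProbabilityMeasure μ := by
  obtain ⟨θ, h1, h2, -⟩ := h.angles
  exact prob_of_map (h1 ⟨2, Nat.prime_two⟩) (h2 _)

lemma Steinhaus.norm_prime (h : Steinhaus μ X) {p : ℕ} (hp : p.Prime) (ω : Ω) : ‖X p ω‖ = 1 := by
  obtain ⟨θ, h1, h2, h3, h4⟩ := h.angles
  rw [h4 ⟨p, hp⟩ ω, ← ex_one, norm_ex]

lemma Steinhaus.measurable_prime (h : Steinhaus μ X) {p : ℕ} (hp : p.Prime) :
    Measurable (X p) := by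
  obtain ⟨θ, h1, h2, h3, h4⟩ := h.angles
  have : X p = fun ω => ex 1 (θ ⟨p, hp⟩ ω) := by
    funext ω
    rw [h4 ⟨p, hp⟩ ω, ex_one]
  rw [this]
  exact (continuous_ex 1).measurable.comp (h1 _)

lemma Steinhaus.one (h : Steinhaus μ X) (ω : Ω) : X 1 ω = 1 := by
  have h1 := h.map_mul 1 2 one_pos two_pos ω
  rw [one_mul] at h1
  have h2 : X 2 ω ≠ 0 := by
    intro h0
    have := h.norm_prime Nat.prime_two ω
    rw [h0, norm_zero] at this
    exact zero_ne_one this
  have h3 : (X 1 ω - 1) * X 2 ω = 0 := by rw [sub_mul, ← h1, one_mul, sub_self]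
  rcases mul_eq_zero.1 h3 with h4 | h4
  · exact sub_eq_zero.1 h4
  · exact absurd h4 h2

lemma Steinhaus.pow (h : Steinhaus μ X) {p : ℕ} (hp : p.Prime) (k : ℕ) (ω : Ω) :
    X (p ^ k) ω = X p ω ^ k := by
  induction k with
  | zero => rw [pow_zero, pow_zero, h.one]
  | succ k ih => rw [pow_succ, h.map_mul _ _ (pow_pos hp.pos k) hp.pos, ih, pow_succ]

/-- the random function for the modulus `q` -/
noncomputable def gX (q : ℕ) (X : ℕ → Ω → ℂ) (ω : Ω) (n : ℕ) : ℂ :=
  if n.Coprime q then X n ω else 0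

lemma pm_gX (h : Steinhaus μ X) (q : ℕ) (ω : Ω) : PM (gX q X ω) := by
  constructor
  · intro p hp k
    unfold gX
    rcases Nat.eq_zero_or_pos k with hk | hk
    · subst hk
      rw [pow_zero, pow_zero, if_pos (Nat.coprime_one_left q), h.one]
    · by_cases hc : p.Coprime q
      · rw [if_pos hc, if_pos (Nat.Coprime.pow_left k hc), h.pow hp]
      · rw [if_neg hc, if_neg, zero_pow hk.ne']
        intro h1
        exact hc ((Nat.coprime_pow_left_iff hk p q).1 h1)
  · intro p hp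
    unfold gX
    split_ifs
    · exact (h.norm_prime hp ω).le
    · simp

lemma measurable_gX (h : Steinhaus μ X) (q : ℕ) {p : ℕ} (hp : p.Prime) :
    Measurable fun ω => gX q X ω p := by
  unfold gX
  split_ifs
  · exact h.measurable_prime hp
  · exact measurable_const

/-- orthogonality -/
lemma orth_X (h : Steinhaus μ X) {p r : ℕ} (hp : p.Prime) (hr : r.Prime) :
    ∫ ω, conj (X p ω) * X r ω ∂μ = if p = r then 1 else 0 := by
  have := h.prob
  obtain ⟨θ, h1, h2, h3, h4⟩ := h.angles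
  split_ifs with e
  · subst e
    have : ∀ ω, conj (X p ω) * X p ω = 1 := by
      intro ω
      rw [conj_mul', h.norm_prime hp]
      norm_num
    simp_rw [this]
    simp
  · have hne : (⟨p, hp⟩ : Nat.Primes) ≠ ⟨r, hr⟩ := fun h0 => e (congrArg Subtype.val h0)
    have h5 := (h3.indepFun hne).integral_fun_comp_mul_comp (f := ex (-1)) (g := ex 1)
      (h1 _).aemeasurable (h1 _).aemeasurable (continuous_ex _).aestronglyMeasurable
      (continuous_ex _).aestronglyMeasurable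
    have h6 : ∀ ω, conj (X p ω) * X r ω = ex (-1) (θ ⟨p, hp⟩ ω) * ex 1 (θ ⟨r, hr⟩ ω) := by
      intro ω
      rw [h4 ⟨p, hp⟩, h4 ⟨r, hr⟩, ex_neg, ex_one, ex_one]
    simp_rw [h6]
    rw [h5, integral_ex (h1 _) (h2 _)]
    simp

/-- the mean square of a finite sum -/
lemma mean_sq_X (h : Steinhaus μ X) (q : ℕ) (T : Finset ℕ) (hT : ∀ p ∈ T, p.Prime) (b : ℕ → ℂ) :
    ∫ ω, ‖∑ p ∈ T, b p * gX q X ω p‖ ^ 2 ∂μ ≤ ∑ p ∈ T, ‖b p‖ ^ 2 := by
  classical
  have hprob := h.prob
  set T' := T.filter (fun p => p.Coprime q) with hT'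
  have h1 : ∀ ω, ∑ p ∈ T, b p * gX q X ω p = ∑ p ∈ T', b p * X p ω := by
    intro ω
    rw [hT', sum_filter]
    apply sum_congr rfl
    intro p _
    unfold gX
    split_ifs <;> simp
  have h2 : ((∫ ω, ‖∑ p ∈ T, b p * gX q X ω p‖ ^ 2 ∂μ : ℝ) : ℂ) =
      ∑ p ∈ T', (‖b p‖ : ℂ) ^ 2 := by
    rw [← integral_complex_ofReal]
    have h3 : ∀ ω, ((‖∑ p ∈ T, b p * gX q X ω p‖ ^ 2 : ℝ) : ℂ) =
        ∑ p ∈ T', ∑ r ∈ T', conj (b p) * b r * (conj (X p ω) * X r ω) := by
      intro ω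
      push_cast
      rw [h1, ← conj_mul', map_sum, sum_mul_sum]
      apply sum_congr rfl
      intro p _
      apply sum_congr rfl
      intro r _
      rw [map_mul]
      ring
    simp_rw [h3]
    have hint : ∀ p ∈ T', ∀ r ∈ T', Integrable (fun ω => conj (b p) * b r *
        (conj (X p ω) * X r ω)) μ := by
      intro p hp r hr
      have hp' := hT p (mem_filter.1 hp).1
      have hr' := hT r (mem_filter.1 hr).1
      apply Integrable.const_mul
      refine Integrable.of_bound ?_ 1 ?_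
      · exact ((Complex.continuous_conj.measurable.comp (h.measurable_prime hp')).mul
          (h.measurable_prime hr')).aestronglyMeasurable
      · exact Eventually.of_forall fun ω => by
          rw [norm_mul, Complex.norm_conj, h.norm_prime hp', h.norm_prime hr']
          norm_num
    rw [integral_finset_sum _ fun p hp => integrable_finset_sum _ fun r hr => hint p hp r hr]
    apply sum_congr rfl
    intro p hp
    rw [integral_finset_sum _ fun r hr => hint p hp r hr]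
    have h4 : ∀ r ∈ T', ∫ ω, conj (b p) * b r * (conj (X p ω) * X r ω) ∂μ =
        if p = r then conj (b p) * b r else 0 := by
      intro r hr
      rw [integral_const_mul, orth_X h (hT p (mem_filter.1 hp).1) (hT r (mem_filter.1 hr).1)]
      split_ifs <;> simp
    rw [sum_congr rfl h4, sum_ite_eq, if_pos hp, conj_mul']
  have h5 : ∫ ω, ‖∑ p ∈ T, b p * gX q X ω p‖ ^ 2 ∂μ = ∑ p ∈ T', ‖b p‖ ^ 2 := by
    exact_mod_cast h2
  rw [h5]
  exact sum_le_sum_of_subset_of_nonneg (filter_subset _ _) fun _ _ _ => by positivity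

/-- the tail is small, uniformly -/
lemma tail_small {M ε : ℝ} (hε : 0 < ε) {θ : ℝ} (hθ : 0 < θ) :
    ∃ Z : ℝ, 0 ≤ Z ∧ ∀ (a g : ℕ → ℂ), (∀ p : ℕ, p.Prime → ‖a p‖ ≤ M) → PM g →
      ‖PG (cut a Z) g (1 + (ε : ℂ))‖ < θ := by
  classical
  set f : ℝ → Nat.Primes → ℝ := fun Z p =>
    if ((p : ℕ) : ℝ) ≤ Z then 0 else |M| * ((p : ℕ) : ℝ) ^ (-(1 + ε)) with hf
  have hsum : Summable fun p : Nat.Primes => |M| * ((p : ℕ) : ℝ) ^ (-(1 + ε)) :=
    (Nat.Primes.summable_rpow.2 (by linarith)).mul_left _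
  have h1 : Tendsto (fun Z : ℝ => ∑' p, f Z p) atTop (𝓝 (∑' _ : Nat.Primes, (0 : ℝ))) := by
    apply tendsto_tsum_of_dominated_convergence hsum
    · intro p
      apply tendsto_const_nhds.congr'
      filter_upwards [eventually_ge_atTop (((p : ℕ) : ℝ))] with Z hZ
      simp only [hf]
      rw [if_pos hZ]
    · filter_upwards with Z p
      simp only [hf]
      split_ifs
      · rw [norm_zero]; positivity
      · rw [Real.norm_of_nonneg (by positivity)]
  rw [tsum_zero] at h1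
  obtain ⟨Z, hZ, hZ0⟩ := ((h1.eventually (gt_mem_nhds hθ)).and (eventually_ge_atTop 0)).exists
  refine ⟨Z, hZ0, fun a g ha hg => lt_of_le_of_lt ?_ hZ⟩
  unfold PG
  have hs : Summable (f Z) := Summable.of_nonneg_of_le (fun p => by
      simp only [hf]; split_ifs <;> positivity) (fun p => by
      simp only [hf]; split_ifs
      · positivity
      · exact le_rfl) hsum
  refine tsum_of_norm_bounded hs.hasSum fun p => ?_
  simp only [hf]
  unfold cut
  split_ifs
  · simp
  · rw [norm_mul, norm_mul, norm_natCast_cpow_of_pos p.2.pos]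
    have h2 : (-(1 + (ε : ℂ))).re = -(1 + ε) := by simp
    rw [h2]
    have h3 : ‖a p‖ ≤ |M| := (ha p p.2).trans (le_abs_self M)
    have h4 : 0 ≤ ((p : ℕ) : ℝ) ^ (-(1 + ε)) := Real.rpow_nonneg (Nat.cast_nonneg _) _
    calc _ ≤ |M| * (1 * ((p : ℕ) : ℝ) ^ (-(1 + ε))) := by
          apply mul_le_mul h3 _ (by positivity) (by positivity)
          exact mul_le_mul_of_nonneg_right (hg.le p p.2) h4
      _ = _ := by ring

/-- **The large primes, for the random function.** -/
theorem x_tail (h : Steinhaus μ X) {M θ : ℝ} (hM : 0 < M) (hθ : 0 < θ) {Y : ℕ} (hY : 1 ≤ Y) (q : ℕ)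
    {ε : ℝ} (hε : 0 < ε) (a : ℕ → ℂ) (ha : ∀ p : ℕ, p.Prime → ‖a p‖ ≤ M)
    (haY : ∀ p : ℕ, p.Prime → p ≤ Y → a p = 0) :
    μ.real {ω | θ ≤ ‖PG a (gX q X ω) (1 + (ε : ℂ))‖} ≤ 4 * M ^ 2 / (Y * θ ^ 2) := by
  have hprob := h.prob
  obtain ⟨Z, hZ0, hZ⟩ := tail_small (M := M) hε (half_pos hθ)
  have hre : 1 < (1 + (ε : ℂ)).re := by simp; exact hε
  set b : ℕ → ℂ := fun p => a p * (p : ℂ) ^ (-(1 + (ε : ℂ))) with hb
  set S : Ω → ℂ := fun ω => ∑ p ∈ TT Y Z, b p * gX q X ω p with hS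
  have hprime : ∀ p ∈ TT Y Z, p.Prime := fun p hp => (mem_filter.1 hp).2
  have hmeas : Measurable S := by
    apply Finset.measurable_sum
    intro p hp
    exact (measurable_gX h q (hprime p hp)).const_mul _
  have hsub : {ω | θ ≤ ‖PG a (gX q X ω) (1 + (ε : ℂ))‖} ⊆ {ω | (θ / 2) ^ 2 ≤ ‖S ω‖ ^ 2} := by
    intro ω hω
    change θ ≤ ‖PG a (gX q X ω) (1 + (ε : ℂ))‖ at hω
    change (θ / 2) ^ 2 ≤ ‖S ω‖ ^ 2
    have h1 : PG a (gX q X ω) (1 + (ε : ℂ)) = S ω + PG (cut a Z) (gX q X ω) (1 + (ε : ℂ)) := by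
      rw [PG_split ha haY hZ0 (pm_gX h q ω) hre]
      congr 1
      apply sum_congr rfl
      intro p _
      simp only [hb]
      ring
    have h2 := hZ a (gX q X ω) ha (pm_gX h q ω)
    have h3 := norm_add_le (S ω) (PG (cut a Z) (gX q X ω) (1 + (ε : ℂ)))
    rw [← h1] at h3
    exact pow_le_pow_left₀ (by positivity) (by linarith) 2
  have hint : Integrable (fun ω => ‖S ω‖ ^ 2) μ := by
    refine Integrable.of_bound ?_ ((∑ p ∈ TT Y Z, ‖b p‖) ^ 2) ?_
    · exact (hmeas.norm.pow_const 2).aestronglyMeasurable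
    · exact Eventually.of_forall fun ω => by
        rw [Real.norm_of_nonneg (by positivity)]
        apply pow_le_pow_left₀ (norm_nonneg _)
        apply norm_sum_le_of_le
        intro p hp
        rw [norm_mul]
        exact mul_le_of_le_one_right (norm_nonneg _) ((pm_gX h q ω).le p (hprime p hp))
  have h1 := mul_meas_ge_le_integral_of_nonneg (μ := μ) (f := fun ω => ‖S ω‖ ^ 2)
    (Eventually.of_forall fun ω => by positivity) hint ((θ / 2) ^ 2)
  have h2 := mean_sq_X h q (TT Y Z) hprime b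
  have h3 : ∑ p ∈ TT Y Z, ‖b p‖ ^ 2 ≤ M ^ 2 / Y := by
    have h5 : ∀ p ∈ TT Y Z, ‖b p‖ ^ 2 ≤ M ^ 2 * (1 / (p : ℝ) ^ 2) := by
      intro p hp
      have hp' := hprime p hp
      have hp0 : (0 : ℝ) < p := by exact_mod_cast hp'.pos
      simp only [hb]
      rw [norm_mul, norm_natCast_cpow_of_pos hp'.pos, mul_pow]
      apply mul_le_mul (pow_le_pow_left₀ (norm_nonneg _) (ha p hp') 2) _ (by positivity)
        (by positivity)
      rw [one_div, ← inv_pow]
      apply pow_le_pow_left₀ (by positivity)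
      rw [← Real.rpow_neg_one]
      apply Real.rpow_le_rpow_of_exponent_le (by exact_mod_cast hp'.one_le)
      simp
      exact hε.le
    refine (sum_le_sum h5).trans ?_
    rw [← mul_sum, div_eq_mul_one_div]
    apply mul_le_mul_of_nonneg_left _ (by positivity)
    refine le_trans ?_ (sum_sq_le hY ⌊Z⌋₊)
    apply sum_le_sum_of_subset_of_nonneg
    · exact filter_subset _ _
    · intro _ _ _
      positivity
  have h4 : μ.real {ω | θ ≤ ‖PG a (gX q X ω) (1 + (ε : ℂ))‖} ≤
      μ.real {ω | (θ / 2) ^ 2 ≤ ‖S ω‖ ^ 2} := measureReal_mono hsub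
  have hY0 : (0 : ℝ) < Y := by exact_mod_cast hY
  have h5 : (θ / 2) ^ 2 * μ.real {ω | θ ≤ ‖PG a (gX q X ω) (1 + (ε : ℂ))‖} ≤
      (θ / 2) ^ 2 * (4 * M ^ 2 / (Y * θ ^ 2)) := by
    have h6 : (θ / 2) ^ 2 * (4 * M ^ 2 / (Y * θ ^ 2)) = M ^ 2 / Y := by
      field_simp
      ring
    rw [h6]
    refine (mul_le_mul_of_nonneg_left h4 (by positivity)).trans (h1.trans (h2.trans h3))
  exact le_of_mul_le_mul_left h5 (by positivity)

end

end Pool.Agent.H439.LL
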