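import Pool.Agent.H439.SP.FieldTail

/-!
# Euler products twisted by multiplicative functions
-/

set_option autoImplicit false

namespace Pool.Agent.H439.LL

open Finset Complex NumberField IsDedekindDomain Polynomial Pool.Agent.TH339.MP Pool.Agent.H439.LS
  Pool.Agent.H439.SP

/-- multiplicative on the powers of each prime, bounded by one -/
structure PM (g : ℕ → ℂ) : Prop where
  pow : ∀ p : ℕ, p.Prime → ∀ k : ℕ, g (p ^ k) = g p ^ k
  le : ∀ p : ℕ, p.Prime → ‖g p‖ ≤ 1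

/-- the series over the primes -/
noncomputable def PG (a : ℕ → ℂ) (g : ℕ → ℂ) (s : ℂ) : ℂ :=
  ∑' p : Nat.Primes, a p * (g p * ((p : ℕ) : ℂ) ^ (-s))

section
variable {K : Type} [Field K] [NumberField K] {N : ℕ}

/-- the twisted parameters -/
noncomputable def tg (β : HeightOneSpectrum (𝓞 K) → Fin N → ℂ) (g : ℕ → ℂ)
    (v : HeightOneSpectrum (𝓞 K)) (j : Fin N) : ℂ := β v j * g (nm v)

lemma norm_g_nm {g : ℕ → ℂ} (hg : PM g) (v : HeightOneSpectrum (𝓞 K)) : ‖g (nm v)‖ ≤ 1 := by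
  rw [nm_eq, hg.pow _ (pr v).2, norm_pow]
  exact pow_le_one₀ (norm_nonneg _) (hg.le _ (pr v).2)

lemma norm_tg {β : HeightOneSpectrum (𝓞 K) → Fin N → ℂ} (hβ : ∀ v j, ‖β v j‖ ≤ 1) {g : ℕ → ℂ}
    (hg : PM g) (v : HeightOneSpectrum (𝓞 K)) (j : Fin N) : ‖tg β g v j‖ ≤ 1 := by
  unfold tg
  rw [norm_mul]
  exact mul_le_one₀ (hβ v j) (norm_nonneg _) (norm_g_nm hg v)

lemma bb_tg (β : HeightOneSpectrum (𝓞 K) → Fin N → ℂ) {g : ℕ → ℂ} (hg : PM g)
    (x : PP) : bb (tg β g) x = bb β x * g (x.1 : ℕ) ^ (x.2 + 1) := by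
  unfold bb
  rw [sum_mul]
  apply sum_congr rfl
  intro v hv
  rw [mem_Sp] at hv
  by_cases h : dg v ∣ x.2 + 1
  · rw [if_pos h, if_pos h]
    obtain ⟨c, hc⟩ := h
    have e : (x.2 + 1) / dg v = c := by
      rw [hc, Nat.mul_div_cancel_left _ (dg_pos v)]
    rw [e]
    have h1 : ∀ j, tg β g v j ^ c = β v j ^ c * g (x.1 : ℕ) ^ (x.2 + 1) := by
      intro j
      unfold tg
      rw [mul_pow]
      congr 1
      rw [nm_eq, hv, hg.pow _ x.1.2, ← pow_mul, hc]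
    rw [sum_congr rfl fun j _ => h1 j, ← sum_mul]
    ring
  · rw [if_neg h, if_neg h, zero_mul]

/-- the coefficients of the large part at small prime powers -/
lemma bb_hi' (β : HeightOneSpectrum (𝓞 K) → Fin N → ℂ) (y : ℝ) (g : ℕ → ℂ)
    (x : PP) (hx : ((x.1 : ℕ) : ℝ) ^ (x.2 + 1) ≤ y) : bb (tg (hi β y) g) x = 0 := by
  unfold bb
  apply sum_eq_zero
  intro v hv
  rw [mem_Sp] at hv
  split_ifs with h
  · have hle : dg v ≤ x.2 + 1 := Nat.le_of_dvd (Nat.succ_pos _) h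
    have hnm : (nm v : ℝ) ≤ y := by
      refine le_trans ?_ hx
      rw [nm_eq, hv]
      push_cast
      exact pow_le_pow_right₀ (by exact_mod_cast x.1.2.one_le) hle
    have h1 : ∀ j : Fin N, tg (hi β y) g v j ^ ((x.2 + 1) / dg v) = 0 := by
      intro j
      unfold tg hi
      rw [if_pos hnm, zero_mul]
      exact zero_pow (Nat.div_pos hle (dg_pos v)).ne'
    rw [sum_congr rfl fun j _ => h1 j, sum_const_zero, zero_mul]
  · rfl

/-- **The large part of the logarithm.** -/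
lemma FG_hi {β : HeightOneSpectrum (𝓞 K) → Fin N → ℂ} (hβ : ∀ v j, ‖β v j‖ ≤ 1) {g : ℕ → ℂ}
    (hg : PM g) {y : ℝ} (hy : 1 ≤ y) {s : ℂ} (hs : 1 < s.re) :
    ‖FF (bb (tg (hi β y) g)) s - PG (LS.ap (hi β y)) g s‖ ≤
      (Module.finrank ℚ K : ℝ) * N * c₁ * y ^ (-(1 / 4 : ℝ)) := by
  set M : ℝ := (Module.finrank ℚ K : ℝ) * N with hM
  have hM0 : 0 ≤ M := by positivity
  have hy0 : 0 < y := by linarith
  have hβ' := norm_hi hβ y
  have hb := norm_bb (norm_tg hβ' hg)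
  have hsum := summable_tm hb hs
  have h1 : FF (bb (tg (hi β y) g)) s =
      ∑' p : Nat.Primes, ∑' k : ℕ, tm (bb (tg (hi β y) g)) s (p, k) := by
    unfold FF
    exact hsum.tsum_prod
  have hk : ∀ p : Nat.Primes, Summable fun k : ℕ => tm (bb (tg (hi β y) g)) s (p, k) :=
    fun p => hsum.prod_factor p
  have h2 : ∀ p : Nat.Primes, ∑' k : ℕ, tm (bb (tg (hi β y) g)) s (p, k) =
      LS.ap (hi β y) p * (g (p : ℕ) * ((p : ℕ) : ℂ) ^ (-s)) +
        ∑' k : ℕ, tm (bb (tg (hi β y) g)) s (p, k + 1) := by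
    intro p
    rw [(hk p).tsum_eq_zero_add]
    congr 1
    unfold tm LS.ap
    rw [dif_pos p.2, bb_tg _ hg]
    simp
    ring
  have h3 : ∀ p : Nat.Primes, ‖∑' k : ℕ, tm (bb (tg (hi β y) g)) s (p, k + 1)‖ ≤
      M * y ^ (-(1 / 4 : ℝ)) * (5 / 4 * ((p : ℕ) : ℝ) ^ (-(3 / 2 : ℝ))) := by
    intro p
    have hp0 := prime_pos p
    have hp2 := two_le_prime p
    have hinv : ‖((p : ℕ) : ℂ) ^ (-s)‖ ≤ ((p : ℕ) : ℝ)⁻¹ := by
      rw [norm_pr_cpow', ← Real.rpow_neg_one]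
      have : (1 : ℝ) ≤ ((p : ℕ) : ℝ) := by exact_mod_cast p.2.one_le
      exact Real.rpow_le_rpow_of_exponent_le this (by linarith)
    set x : ℝ := ‖((p : ℕ) : ℂ) ^ (-s)‖ with hx
    have hx0 : 0 ≤ x := norm_nonneg _
    set P : ℝ := ((p : ℕ) : ℝ) with hP
    set r : ℝ := P ^ (-(3 / 4 : ℝ)) with hr
    have hr0 : 0 < r := Real.rpow_pos_of_pos hp0 _
    have hr35 : r ≤ 3 / 5 := by
      have h5 : r ≤ (2 : ℝ) ^ (-(3 / 4 : ℝ)) :=
        Real.rpow_le_rpow_of_nonpos (by norm_num) hp2 (by norm_num)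
      have h6 : (2 : ℝ) ^ (-(3 / 4 : ℝ)) ≤ 3 / 5 := by
        by_contra hcon
        rw [not_le] at hcon
        have h7 : (3 / 5 : ℝ) ^ 4 < ((2 : ℝ) ^ (-(3 / 4 : ℝ))) ^ 4 :=
          pow_lt_pow_left₀ hcon (by norm_num) (by norm_num)
        have h8 : ((2 : ℝ) ^ (-(3 / 4 : ℝ))) ^ 4 = 1 / 8 := by
          rw [← Real.rpow_natCast, ← Real.rpow_mul (by norm_num)]
          norm_num
        rw [h8] at h7
        norm_num at h7
      exact h5.trans h6
    have hterm : ∀ k : ℕ, ‖tm (bb (tg (hi β y) g)) s (p, k + 1)‖ ≤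
        M / 2 * y ^ (-(1 / 4 : ℝ)) * P ^ (-(3 / 2 : ℝ)) * (3 / 5) ^ k := by
      intro k
      unfold tm
      simp only
      rw [norm_mul, norm_pow, ← hx]
      by_cases hxy : P ^ (k + 1 + 1) ≤ y
      · rw [bb_hi' β y g (p, k + 1) hxy, norm_zero, zero_mul]
        positivity
      · rw [not_le] at hxy
        have h4 := hb (p, k + 1)
        simp only at h4
        have h5 : (2 : ℝ) ≤ ((k + 1 + 1 : ℕ) : ℝ) := by
          push_cast; linarith [Nat.cast_nonneg (α := ℝ) k]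
        have h6 : ‖bb (tg (hi β y) g) (p, k + 1)‖ ≤ M / 2 :=
          h4.trans (div_le_div_of_nonneg_left hM0 (by norm_num) h5)
        have h7 : x ^ (k + 1 + 1) ≤ y ^ (-(1 / 4 : ℝ)) * (P ^ (-(3 / 2 : ℝ)) * (3 / 5) ^ k) := by
          have h8 : x ^ (k + 1 + 1) ≤ (P ^ (k + 1 + 1))⁻¹ := by
            rw [← inv_pow]
            exact pow_le_pow_left₀ hx0 hinv _
          have h9 : (P ^ (k + 1 + 1))⁻¹ = (P ^ (k + 1 + 1)) ^ (-(1 / 4 : ℝ)) *
              (P ^ (k + 1 + 1)) ^ (-(3 / 4 : ℝ)) := by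
            rw [← Real.rpow_add (by positivity), ← Real.rpow_neg_one]
            norm_num
          have h10 : (P ^ (k + 1 + 1)) ^ (-(1 / 4 : ℝ)) ≤ y ^ (-(1 / 4 : ℝ)) :=
            Real.rpow_le_rpow_of_nonpos hy0 hxy.le (by norm_num)
          have h11 : (P ^ (k + 1 + 1)) ^ (-(3 / 4 : ℝ)) = P ^ (-(3 / 2 : ℝ)) * r ^ k := by
            rw [hr, ← Real.rpow_natCast P (k + 1 + 1), ← Real.rpow_mul hp0.le,
              ← Real.rpow_natCast (P ^ (-(3 / 4 : ℝ))) k, ← Real.rpow_mul hp0.le,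
              ← Real.rpow_add hp0]
            congr 1
            push_cast
            ring
          refine h8.trans ?_
          rw [h9, h11]
          apply mul_le_mul h10 _ (by positivity) (by positivity)
          apply mul_le_mul_of_nonneg_left _ (by positivity)
          exact pow_le_pow_left₀ hr0.le hr35 k
        calc ‖bb (tg (hi β y) g) (p, k + 1)‖ * x ^ (k + 1 + 1) ≤
              (M / 2) * (y ^ (-(1 / 4 : ℝ)) * (P ^ (-(3 / 2 : ℝ)) * (3 / 5) ^ k)) :=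
              mul_le_mul h6 h7 (by positivity) (by positivity)
          _ = _ := by ring
    have hgs : HasSum (fun k : ℕ => M / 2 * y ^ (-(1 / 4 : ℝ)) * P ^ (-(3 / 2 : ℝ)) * (3 / 5 : ℝ) ^ k)
        (M / 2 * y ^ (-(1 / 4 : ℝ)) * P ^ (-(3 / 2 : ℝ)) * (1 - 3 / 5)⁻¹) :=
      (hasSum_geometric_of_lt_one (by norm_num) (by norm_num)).mul_left _
    refine (tsum_of_norm_bounded hgs hterm).trans (le_of_eq ?_)
    ring
  have hps : Summable fun p : Nat.Primes => ((p : ℕ) : ℝ) ^ (-(3 / 2 : ℝ)) :=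
    Nat.Primes.summable_rpow.2 (by norm_num)
  have hs1 : Summable fun p : Nat.Primes => LS.ap (hi β y) p * (g (p : ℕ) * ((p : ℕ) : ℂ) ^ (-s)) := by
    refine Summable.of_norm_bounded (g := fun p : Nat.Primes => M * ((p : ℕ) : ℝ) ^ (-s.re))
      ((Nat.Primes.summable_rpow.2 (by linarith)).mul_left M) fun p => ?_
    rw [norm_mul, norm_mul, norm_pr_cpow']
    have h9 := LS.norm_ap hβ' p p.2
    have h10 := hg.le p p.2
    have h11 : 0 ≤ ((p : ℕ) : ℝ) ^ (-s.re) := Real.rpow_nonneg (prime_pos p).le _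
    calc _ ≤ M * (1 * ((p : ℕ) : ℝ) ^ (-s.re)) := by
          apply mul_le_mul h9 _ (by positivity) hM0
          exact mul_le_mul_of_nonneg_right h10 h11
      _ = _ := by ring
  have hsb := (hps.mul_left (5 / 4)).mul_left (M * y ^ (-(1 / 4 : ℝ)))
  have hs2 : Summable fun p : Nat.Primes => ∑' k : ℕ, tm (bb (tg (hi β y) g)) s (p, k + 1) :=
    Summable.of_norm_bounded hsb h3
  have h12 : FF (bb (tg (hi β y) g)) s - PG (LS.ap (hi β y)) g s =
      ∑' p : Nat.Primes, ∑' k : ℕ, tm (bb (tg (hi β y) g)) s (p, k + 1) := by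
    rw [h1, tsum_congr h2, hs1.tsum_add hs2]
    unfold PG
    ring
  rw [h12]
  refine (tsum_of_norm_bounded hsb.hasSum h3).trans (le_of_eq ?_)
  rw [tsum_mul_left, tsum_mul_left]
  unfold c₁
  ring

/-- the primes of norm at most `y` -/
lemma finite_le (y : ℝ) : {v : HeightOneSpectrum (𝓞 K) | (nm v : ℝ) ≤ y}.Finite := by
  have h1 : {v : HeightOneSpectrum (𝓞 K) | (nm v : ℝ) ≤ y} ⊆
      ⋃ p ∈ {p : Nat.Primes | (p : ℕ) ≤ ⌊y⌋₊}, {v | pr v = p} := by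
    intro v hv
    have hv' : (nm v : ℝ) ≤ y := hv
    simp only [Set.mem_iUnion, exists_prop]
    refine ⟨pr v, ?_, rfl⟩
    change (pr v : ℕ) ≤ ⌊y⌋₊
    apply Nat.le_floor
    refine le_trans ?_ hv'
    have h2 : (pr v : ℕ) ≤ nm v := by
      rw [nm_eq]
      exact Nat.le_self_pow (dg_pos v).ne' _
    exact_mod_cast h2
  refine Set.Finite.subset (Set.Finite.biUnion ?_ fun p _ => finite_fiber p) h1
  exact (Set.finite_Iic ⌊y⌋₊).preimage Nat.Primes.coe_nat_injective.injOn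

/-- the set of the primes of norm at most `y` -/
noncomputable def Vy (K : Type) [Field K] [NumberField K] (y : ℝ) :
    Finset (HeightOneSpectrum (𝓞 K)) := (finite_le (K := K) y).toFinset

lemma mem_Vy {y : ℝ} {v : HeightOneSpectrum (𝓞 K)} : v ∈ Vy K y ↔ (nm v : ℝ) ≤ y := by
  unfold Vy
  rw [Set.Finite.mem_toFinset]
  rfl

/-- the finite Euler product -/
noncomputable def EP (P : HeightOneSpectrum (𝓞 K) → ℂ[X]) (g : ℕ → ℂ) (s : ℂ) (y : ℝ) : ℂ :=
  ∏ v ∈ Vy K y, ((P v).eval (g (nm v) * ((nm v : ℕ) : ℂ) ^ (-s)))⁻¹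

/-- the Euler product -/
noncomputable def LG (P : HeightOneSpectrum (𝓞 K) → ℂ[X]) (g : ℕ → ℂ) (s : ℂ) : ℂ :=
  ∏' v : HeightOneSpectrum (𝓞 K), ((P v).eval (g (nm v) * ((nm v : ℕ) : ℂ) ^ (-s)))⁻¹

/-- **The twisted Euler products and the finite Euler products.** -/
lemma hasProd_gen (w : ℝ) (P : HeightOneSpectrum (𝓞 K) → ℂ[X])
    (h0 : ∀ v, (P v).coeff 0 = 1) (hN : ∀ v, (P v).natDegree ≤ N)
    (hroot : ∀ v, ∀ z : ℂ, (P v).IsRoot z → ((nm v : ℕ) : ℝ) ^ (-(w / 2)) ≤ ‖z‖) {y : ℝ}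
    (hy : 1 ≤ y) :
    ∃ a : ℕ → ℂ, (∀ p : ℕ, p.Prime → ‖a p‖ ≤ (Module.finrank ℚ K : ℝ) * N) ∧
      (∀ p : ℕ, p.Prime → (p : ℝ) ≤ y → a p = 0) ∧
      ∀ (g : ℕ → ℂ) (s : ℂ), PM g → 1 + w / 2 < s.re → ∃ Λ Λ' : ℂ,
        HasProd (fun v => ((P v).eval (g (nm v) * ((nm v : ℕ) : ℂ) ^ (-s)))⁻¹)
          (Complex.exp (Λ + Λ')) ∧
        EP P g s y = Complex.exp Λ' ∧
        ‖Λ - PG a g (s - (w / 2 : ℝ))‖ ≤
          (Module.finrank ℚ K : ℝ) * N * c₁ * y ^ (-(1 / 4 : ℝ)) := by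
  classical
  obtain ⟨β, h1, h2⟩ := exists_beta_all w P h0 hN hroot
  refine ⟨LS.ap (hi β y), LS.norm_ap (norm_hi h1 y), fun p hp hpy => ap_hi β y hp hpy, ?_⟩
  intro g s hg hs
  have hre : 1 < (s - (w / 2 : ℝ)).re := by
    rw [Complex.sub_re, Complex.ofReal_re]
    linarith
  have key : ∀ v, ((P v).eval (g (nm v) * ((nm v : ℕ) : ℂ) ^ (-s)))⁻¹ =
      ∏ j, (1 - tg β g v j * ((nm v : ℕ) : ℂ) ^ (-(s - (w / 2 : ℝ))))⁻¹ := by
    intro v
    rw [h2, ← Finset.prod_inv_distrib]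
    apply Finset.prod_congr rfl
    intro j _
    congr 2
    unfold tg
    have hpos : (0 : ℝ) < ((nm v : ℕ) : ℝ) := by
      rw [nm_eq, Nat.cast_pow]
      exact pow_pos (prime_pos _) _
    have hne : ((nm v : ℕ) : ℂ) ≠ 0 := by
      have := hpos.ne'
      exact_mod_cast this
    have h3 : ((nm v : ℕ) : ℂ) ^ (-(s - (w / 2 : ℝ))) =
        ((((nm v : ℕ) : ℝ) ^ (w / 2) : ℝ) : ℂ) * ((nm v : ℕ) : ℂ) ^ (-s) := by
      rw [show -(s - ((w / 2 : ℝ) : ℂ)) = ((w / 2 : ℝ) : ℂ) + -s by ring, cpow_add _ _ hne]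
      congr 1
      rw [Complex.ofReal_cpow hpos.le]
      push_cast
      rfl
    rw [h3]
    ring
  refine ⟨FF (bb (tg (hi β y) g)) (s - (w / 2 : ℝ)), FF (bb (tg (lo β y) g)) (s - (w / 2 : ℝ)),
    ?_, ?_, FG_hi h1 hg hy hre⟩
  · have h3 := (hasProd_L (norm_tg (norm_hi h1 y) hg) hre).mul
      (hasProd_L (norm_tg (norm_lo h1 y) hg) hre)
    rw [← Complex.exp_add] at h3
    convert h3 using 1
    funext v
    rw [key, ← Finset.prod_mul_distrib]
    apply Finset.prod_congr rfl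
    intro j _
    unfold tg hi lo
    split_ifs <;> simp
  · have h3 := hasProd_L (norm_tg (norm_lo h1 y) hg) hre
    have h4 : HasProd (fun v : HeightOneSpectrum (𝓞 K) => ∏ j, (1 - tg (lo β y) g v j *
        ((nm v : ℕ) : ℂ) ^ (-(s - (w / 2 : ℝ))))⁻¹) (∏ v ∈ Vy K y, ∏ j, (1 - tg (lo β y) g v j *
        ((nm v : ℕ) : ℂ) ^ (-(s - (w / 2 : ℝ))))⁻¹) := by
      apply hasProd_prod_of_ne_finset_one
      intro v hv
      rw [mem_Vy] at hv
      apply Finset.prod_eq_one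
      intro j _
      unfold tg lo
      rw [if_neg hv]
      simp
    rw [← h3.unique h4 |>.symm]
    unfold EP
    apply Finset.prod_congr rfl
    intro v hv
    rw [key]
    apply Finset.prod_congr rfl
    intro j _
    unfold tg lo
    rw [if_pos (mem_Vy.1 hv)]

end

end Pool.Agent.H439.LL
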