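import Pool.Agent.H439.LL.Fin

/-!
# The characters modulo `q` and the random function on the torus
-/

set_option autoImplicit false
set_option linter.unusedSectionVars false

namespace Pool.Agent.H439.LL

open Finset Complex ComplexConjugate Filter Topology MeasureTheory ProbabilityTheory UnitAddTorus
  Pool.Agent.H439.LS Pool.Agent.H439.SP

lemma exists_ang {z : ℂ} (hz : ‖z‖ = 1) : ∃ x : UnitAddCircle, (AddCircle.toCircle x : ℂ) = z := by
  refine ⟨(AddCircle.homeomorphCircle (T := 1) one_ne_zero).symm ⟨z, mem_sphere_zero_iff_norm.2 hz⟩, ?_⟩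
  rw [← AddCircle.homeomorphCircle_apply one_ne_zero, Homeomorph.apply_symm_apply]

open Classical in
/-- the angle of a complex number of absolute value one -/
noncomputable def ang (z : ℂ) : UnitAddCircle := if h : ‖z‖ = 1 then (exists_ang h).choose else 0

lemma toCircle_ang {z : ℂ} (hz : ‖z‖ = 1) : (AddCircle.toCircle (ang z) : ℂ) = z := by
  unfold ang
  rw [dif_pos hz]
  exact (exists_ang hz).choose_spec

lemma fourier_ang {z : ℂ} (hz : ‖z‖ = 1) (n : ℤ) : fourier n (ang z) = z ^ n := by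
  rw [fourier_apply, AddCircle.toCircle_zsmul, Circle.coe_zpow, toCircle_ang hz]

lemma norm_char {q : ℕ} [NeZero q] (χ : DirichletCharacter ℂ q) {n : ℕ} (hn : n.Coprime q) :
    ‖χ (n : ZMod q)‖ = 1 := by
  obtain ⟨u, hu⟩ := (ZMod.isUnit_iff_coprime n q).2 hn
  rw [← hu]
  exact χ.unit_norm_eq_one u

lemma norm_gch {q : ℕ} [NeZero q] (χ : DirichletCharacter ℂ q) (t : ℝ) {n : ℕ} (hn0 : 0 < n)
    (hn : n.Coprime q) : ‖gch χ t n‖ = 1 := by
  unfold gch
  rw [norm_mul, norm_ph _ hn0, norm_char χ hn, one_mul]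

/-- the point of the torus attached to a character -/
noncomputable def uc (Y : ℕ) {q : ℕ} (t : ℝ) (χ : DirichletCharacter ℂ q) :
    UnitAddTorus (DY Y) := fun i => if (i : ℕ).Coprime q then ang (gch χ t i) else 0

/-- the masked exponents -/
def msk {Y : ℕ} (q : ℕ) (m : DY Y → ℤ) (i : DY Y) : ℤ := if (i : ℕ).Coprime q then m i else 0

lemma prime_DY {Y : ℕ} (i : DY Y) : (i : ℕ).Prime := (mem_filter.1 i.2).2

lemma zS_uc (Y : ℕ) {q : ℕ} [NeZero q] (t : ℝ) (χ : DirichletCharacter ℂ q) :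
    ∀ p ∈ DY Y, zS ((DY Y).filter fun p => p.Coprime q) (uc Y t χ) p = gch χ t p := by
  intro p hp
  have hpp : p.Prime := (mem_filter.1 hp).2
  unfold zS
  by_cases hc : p.Coprime q
  · rw [dif_pos ⟨hp, mem_filter.2 ⟨hp, hc⟩⟩]
    unfold uc
    rw [if_pos hc]
    exact toCircle_ang (norm_gch χ t hpp.pos hc)
  · have hneg : ¬ (p ∈ DY Y ∧ p ∈ (DY Y).filter fun p => p.Coprime q) :=
      fun h => hc (mem_filter.1 h.2).2
    rw [dif_neg hneg]
    unfold gch
    have : χ (p : ZMod q) = 0 := by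
      apply MulChar.map_nonunit
      rw [ZMod.isUnit_iff_coprime]
      exact hc
    rw [this, zero_mul]

lemma mFourier_uc (Y : ℕ) {q : ℕ} [NeZero q] (t : ℝ) (χ : DirichletCharacter ℂ q)
    (m : DY Y → ℤ) : mFourier m (uc Y t χ) =
      (∏ i : DY Y, ph (-t) i ^ msk q m i) * ∏ i : DY Y, χ ((i : ℕ) : ZMod q) ^ msk q m i := by
  rw [← prod_mul_distrib]
  change ∏ i : DY Y, fourier (m i) (uc Y t χ i) = _
  apply prod_congr rfl
  intro i _
  unfold uc msk
  split_ifs with hc
  · rw [fourier_ang (norm_gch χ t (prime_DY i).pos hc), ← mul_zpow]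
    congr 1
    unfold gch
    ring
  · rw [fourier_eval_zero]
    simp

lemma zpow_conj {z : ℂ} (hz : ‖z‖ = 1) (m : ℤ) : z ^ m = conj (z ^ (-m).toNat) * z ^ m.toNat := by
  have hz0 : z ≠ 0 := by
    intro h
    rw [h, norm_zero] at hz
    exact zero_ne_one hz
  have h1 : conj z = z⁻¹ := by
    have : conj z * z = 1 := by
      rw [conj_mul', hz]; norm_num
    exact eq_inv_of_mul_eq_one_left this
  rcases le_total 0 m with h | h
  · have h2 : (-m).toNat = 0 := Int.toNat_of_nonpos (by omega)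
    rw [h2, pow_zero, map_one, one_mul]
    conv_lhs => rw [← Int.toNat_of_nonneg h]
    rw [zpow_natCast]
  · have h2 : m.toNat = 0 := Int.toNat_of_nonpos h
    rw [h2, pow_zero, mul_one, map_pow, h1, inv_pow]
    conv_lhs => rw [show m = -((-m).toNat : ℤ) by rw [Int.toNat_of_nonneg (by omega)]; ring]
    rw [zpow_neg, zpow_natCast]

/-- the product of prime powers -/
def pp {Y : ℕ} (e : DY Y → ℕ) : ℕ := ∏ i : DY Y, (i : ℕ) ^ e i

lemma pp_pos {Y : ℕ} (e : DY Y → ℕ) : 0 < pp e := prod_pos fun i _ => pow_pos (prime_DY i).pos _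

lemma fact_pp {Y : ℕ} (e : DY Y → ℕ) (i : DY Y) : (pp e).factorization i = e i := by
  unfold pp
  rw [Nat.factorization_prod fun i _ => (pow_pos (prime_DY i).pos _).ne']
  rw [Finsupp.finsetSum_apply]
  have h1 : ∀ k : DY Y, (((k : ℕ) ^ e k).factorization) (i : ℕ) = if k = i then e i else 0 := by
    intro k
    rw [Nat.factorization_pow, (prime_DY k).factorization, Finsupp.smul_apply, Finsupp.single_apply]
    by_cases h : k = i
    · subst h; simp
    · rw [if_neg (fun h' => h (Subtype.ext h')), if_neg h]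
      simp
  rw [sum_congr rfl fun k _ => h1 k]
  simp

/-- a bound for the integers in question -/
def sz {Y : ℕ} (m : DY Y → ℤ) : ℕ := pp fun i => (m i).natAbs

lemma pp_le {Y : ℕ} {e f : DY Y → ℕ} (h : ∀ i, e i ≤ f i) : pp e ≤ pp f :=
  prod_le_prod' fun i _ => Nat.pow_le_pow_right (prime_DY i).pos (h i)

lemma sum_mFourier_uc (Y : ℕ) {q : ℕ} [NeZero q] (t : ℝ) (m : DY Y → ℤ) (hq : sz m < q) :
    ∑ χ : DirichletCharacter ℂ q, mFourier m (uc Y t χ) =
      if msk q m = 0 then (q.totient : ℂ) else 0 := by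
  set a := pp fun i => (-(msk q m i)).toNat with ha
  set b := pp fun i => (msk q m i).toNat with hb
  have hle : ∀ i, (msk q m i).natAbs ≤ (m i).natAbs := by
    intro i
    unfold msk
    split_ifs <;> simp
  have haq : a < q := lt_of_le_of_lt (pp_le fun i => by have := hle i; omega) hq
  have hbq : b < q := lt_of_le_of_lt (pp_le fun i => by have := hle i; omega) hq
  have hac : a.Coprime q := by
    apply Nat.Coprime.prod_left
    intro i _
    by_cases hc : (i : ℕ).Coprime q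
    · exact Nat.Coprime.pow_left _ hc
    · change ((i : ℕ) ^ (-(msk q m i)).toNat).Coprime q
      unfold msk
      rw [if_neg hc]
      simp
  have h1 : ∀ χ : DirichletCharacter ℂ q, mFourier m (uc Y t χ) =
      (∏ i : DY Y, ph (-t) i ^ msk q m i) * (conj (χ (a : ZMod q)) * χ (b : ZMod q)) := by
    intro χ
    rw [mFourier_uc]
    congr 1
    rw [ha, hb]
    unfold pp
    push_cast
    rw [map_prod, map_prod, map_prod, ← prod_mul_distrib]
    apply prod_congr rfl
    intro i _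
    simp only [map_pow]
    by_cases hc : (i : ℕ).Coprime q
    · rw [zpow_conj (norm_char χ hc) (msk q m i), map_pow]
    · have : msk q m i = 0 := by unfold msk; rw [if_neg hc]
      rw [this]
      simp
  rw [sum_congr rfl fun χ _ => h1 χ, ← mul_sum, orth hac haq hbq]
  have h2 : a = b ↔ msk q m = 0 := by
    constructor
    · intro h
      funext i
      have h3 := fact_pp (fun i => (-(msk q m i)).toNat) i
      have h4 := fact_pp (fun i => (msk q m i).toNat) i
      rw [← ha] at h3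
      rw [← hb] at h4
      rw [h, h4] at h3
      change msk q m i = 0
      omega
    · intro h
      rw [ha, hb, h]
      simp
  by_cases h : msk q m = 0
  · rw [if_pos h, if_pos (h2.2 h), h]
    simp
  · rw [if_neg h, if_neg (fun h' => h (h2.1 h')), mul_zero]

/-- the average over the characters -/
noncomputable def Aχ (Y : ℕ) (q : ℕ) [NeZero q] (t : ℝ) : C(UnitAddTorus (DY Y), ℂ) →ₗ[ℂ] ℂ where
  toFun G := (q.totient : ℂ)⁻¹ * ∑ χ : DirichletCharacter ℂ q, G (uc Y t χ)
  map_add' G G' := by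
    simp only [ContinuousMap.add_apply, sum_add_distrib]
    ring
  map_smul' c G := by
    simp only [ContinuousMap.smul_apply, smul_eq_mul, RingHom.id_apply, ← mul_sum]
    ring

lemma card_char (q : ℕ) [NeZero q] : Fintype.card (DirichletCharacter ℂ q) = q.totient := by
  rw [← Nat.card_eq_fintype_card]
  exact DirichletCharacter.card_eq_totient_of_hasEnoughRootsOfUnity ℂ q

lemma tot_pos (q : ℕ) [NeZero q] : (0 : ℝ) < q.totient := by
  exact_mod_cast Nat.totient_pos.2 (Nat.pos_of_ne_zero (NeZero.ne q))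

lemma norm_Aχ (Y : ℕ) (q : ℕ) [NeZero q] (t : ℝ) (G : C(UnitAddTorus (DY Y), ℂ)) :
    ‖Aχ Y q t G‖ ≤ ‖G‖ := by
  change ‖(q.totient : ℂ)⁻¹ * ∑ χ : DirichletCharacter ℂ q, G (uc Y t χ)‖ ≤ ‖G‖
  rw [norm_mul, norm_inv, norm_natCast]
  have h1 : ‖∑ χ : DirichletCharacter ℂ q, G (uc Y t χ)‖ ≤ q.totient * ‖G‖ := by
    refine (norm_sum_le_of_le _ fun χ _ => G.norm_coe_le_norm _).trans ?_
    rw [sum_const, card_univ, card_char, nsmul_eq_mul]
  have h2 := tot_pos q
  calc _ ≤ (q.totient : ℝ)⁻¹ * (q.totient * ‖G‖) := mul_le_mul_of_nonneg_left h1 (by positivity)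
    _ = ‖G‖ := by rw [← mul_assoc, inv_mul_cancel₀ h2.ne', one_mul]

lemma Aχ_mFourier (Y : ℕ) {q : ℕ} [NeZero q] (t : ℝ) (m : DY Y → ℤ) (hq : sz m < q) :
    Aχ Y q t (mFourier m) = if msk q m = 0 then 1 else 0 := by
  change (q.totient : ℂ)⁻¹ * ∑ χ : DirichletCharacter ℂ q, mFourier m (uc Y t χ) = _
  rw [sum_mFourier_uc Y t m hq]
  have h2 : (q.totient : ℂ) ≠ 0 := by exact_mod_cast (tot_pos q).ne'
  split_ifs
  · exact inv_mul_cancel₀ h2
  · simp

section
variable {Ω : Type} [MeasurableSpace Ω] {μ : Measure Ω} {X : ℕ → Ω → ℂ}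

/-- the point of the torus attached to the random function -/
noncomputable def ux (Y : ℕ) (q : ℕ) (θ : Nat.Primes → Ω → ℝ) (ω : Ω) :
    UnitAddTorus (DY Y) := fun i =>
  if (i : ℕ).Coprime q then ((θ ⟨i, prime_DY i⟩ ω : ℝ) : UnitAddCircle) else 0

lemma measurable_ux (Y : ℕ) (q : ℕ) {θ : Nat.Primes → Ω → ℝ} (hθ : ∀ p, Measurable (θ p)) :
    Measurable (ux Y q θ) := by
  rw [measurable_pi_iff]
  intro i
  unfold ux
  split_ifs
  · exact (AddCircle.measurable_mk' (a := (1 : ℝ))).comp (hθ _)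
  · exact measurable_const

lemma zS_ux (Y : ℕ) (q : ℕ) {θ : Nat.Primes → Ω → ℝ}
    (h : ∀ (p : Nat.Primes) ω, X p ω = Complex.exp (2 * Real.pi * I * θ p ω)) (ω : Ω) :
    ∀ p ∈ DY Y, zS ((DY Y).filter fun p => p.Coprime q) (ux Y q θ ω) p = gX q X ω p := by
  intro p hp
  have hpp : p.Prime := (mem_filter.1 hp).2
  unfold zS gX
  by_cases hc : p.Coprime q
  · rw [dif_pos ⟨hp, mem_filter.2 ⟨hp, hc⟩⟩, if_pos hc]
    unfold ux
    rw [if_pos hc, AddCircle.toCircle_apply_mk, Circle.coe_exp, h ⟨p, hpp⟩]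
    congr 1
    push_cast
    ring
  · have hneg : ¬ (p ∈ DY Y ∧ p ∈ (DY Y).filter fun p => p.Coprime q) :=
      fun h => hc (mem_filter.1 h.2).2
    rw [dif_neg hneg, if_neg hc]

lemma mFourier_ux (Y : ℕ) (q : ℕ) {θ : Nat.Primes → Ω → ℝ} (m : DY Y → ℤ) (ω : Ω) :
    mFourier m (ux Y q θ ω) = ∏ i : DY Y, ex (msk q m i) (θ ⟨i, prime_DY i⟩ ω) := by
  change ∏ i : DY Y, fourier (m i) (ux Y q θ ω i) = _
  apply prod_congr rfl
  intro i _
  unfold ux msk
  split_ifs
  · rw [fourier_coe_apply]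
    unfold ex
    congr 1
    push_cast
    ring
  · rw [fourier_eval_zero, ex_zero]

lemma integrable_ux [IsProbabilityMeasure μ] (Y : ℕ) (q : ℕ) {θ : Nat.Primes → Ω → ℝ}
    (hθ : ∀ p, Measurable (θ p)) (G : C(UnitAddTorus (DY Y), ℂ)) :
    Integrable (fun ω => G (ux Y q θ ω)) μ := by
  refine Integrable.of_bound ?_ ‖G‖ ?_
  · exact (G.continuous.measurable.comp (measurable_ux Y q hθ)).aestronglyMeasurable
  · exact Eventually.of_forall fun ω => G.norm_coe_le_norm _

/-- the average over the random functions -/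
noncomputable def AX (μ : Measure Ω) [IsProbabilityMeasure μ] (Y : ℕ) (q : ℕ)
    (θ : Nat.Primes → Ω → ℝ) (hθ : ∀ p, Measurable (θ p)) : C(UnitAddTorus (DY Y), ℂ) →ₗ[ℂ] ℂ where
  toFun G := ∫ ω, G (ux Y q θ ω) ∂μ
  map_add' G G' := by
    simp only [ContinuousMap.add_apply]
    exact integral_add (integrable_ux Y q hθ G) (integrable_ux Y q hθ G')
  map_smul' c G := by
    simp only [ContinuousMap.smul_apply, smul_eq_mul, RingHom.id_apply]
    exact integral_const_mul c _

lemma norm_AX [IsProbabilityMeasure μ] (Y : ℕ) (q : ℕ) {θ : Nat.Primes → Ω → ℝ}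
    (hθ : ∀ p, Measurable (θ p)) (G : C(UnitAddTorus (DY Y), ℂ)) :
    ‖AX μ Y q θ hθ G‖ ≤ ‖G‖ := by
  change ‖∫ ω, G (ux Y q θ ω) ∂μ‖ ≤ ‖G‖
  have := norm_integral_le_of_norm_le_const (μ := μ) (f := fun ω => G (ux Y q θ ω)) (C := ‖G‖)
    (Eventually.of_forall fun ω => G.norm_coe_le_norm _)
  simpa using this

lemma AX_mFourier [IsProbabilityMeasure μ] (Y : ℕ) (q : ℕ) {θ : Nat.Primes → Ω → ℝ}
    (hθ : ∀ p, Measurable (θ p)) (hμ : ∀ p, μ.map (θ p) = volume.restrict (Set.Icc 0 1))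
    (hind : iIndepFun θ μ) (m : DY Y → ℤ) :
    AX μ Y q θ hθ (mFourier m) = if msk q m = 0 then 1 else 0 := by
  change ∫ ω, mFourier m (ux Y q θ ω) ∂μ = _
  simp_rw [mFourier_ux]
  exact weyl_random hθ hμ hind (fun i : DY Y => ⟨i, prime_DY i⟩)
    (fun i j hij => Subtype.ext (congrArg (fun x : Nat.Primes => (x : ℕ)) hij)) (msk q m)

end

end Pool.Agent.H439.LL
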